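import Pool.Agent.X134.FC.Window

/-!
# Feynman checkers: the maximisers leave every bounded neighbourhood of `t / √2`
-/

namespace Pool.Agent.X134.FC

open Filter Topology

theorem main (C : ℝ) (hC : ∀ n : ℕ, ∀ x : ℤ,
      (∀ y : ℤ,
        (2:ℝ) ^ (-(n:ℤ)) *
          ‖∑ s ∈ Finset.univ.filter
              (fun s : Fin (n+1) → Bool =>
                s 0 = true ∧ ∑ i, (if s i then (1:ℤ) else -1) = y),
            (-Complex.I) ^ ((Finset.univ.filter
              (fun i : Fin n => s i.castSucc ≠ s i.succ)).card)‖ ^ 2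
        ≤
        (2:ℝ) ^ (-(n:ℤ)) *
          ‖∑ s ∈ Finset.univ.filter
              (fun s : Fin (n+1) → Bool =>
                s 0 = true ∧ ∑ i, (if s i then (1:ℤ) else -1) = x),
            (-Complex.I) ^ ((Finset.univ.filter
              (fun i : Fin n => s i.castSucc ≠ s i.succ)).card)‖ ^ 2) →
      |(x:ℝ) - ((n:ℝ) + 1) / Real.sqrt 2| ≤ C) : False := by
  -- a maximiser for each time
  have hex : ∀ n : ℕ, ∃ l : ℕ, l ≤ n ∧ ∀ l' : ℕ, l' ≤ n →
      (aa (n - l') l' : ℝ) ^ 2 + (bb (n - l') l' : ℝ) ^ 2 ≤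
      (aa (n - l) l : ℝ) ^ 2 + (bb (n - l) l : ℝ) ^ 2 := by
    intro n
    obtain ⟨l, hl, hmax⟩ := Finset.exists_max_image (Finset.range (n + 1))
      (fun l => (aa (n - l) l : ℝ) ^ 2 + (bb (n - l) l : ℝ) ^ 2) ⟨0, by simp⟩
    refine ⟨l, by simpa [Nat.lt_succ_iff] using hl, fun l' hl' => hmax l' ?_⟩
    simpa [Nat.lt_succ_iff] using hl'
  choose ls hls hmax using hex
  have hbound : ∀ n : ℕ, |(((n : ℤ) + 1 - 2 * (ls n : ℤ) : ℤ) : ℝ) - ((n : ℝ) + 1) / Real.sqrt 2| ≤ C := by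
    intro n
    apply hC
    intro y
    rw [normSq_eq, normSq_eq]
    have e := az_eq n (n - ls n) (ls n) (by have := hls n; omega)
    have e1 : (((n - ls n : ℕ) : ℤ) + 1 - (ls n : ℤ)) = (n : ℤ) + 1 - 2 * (ls n : ℤ) := by
      have := hls n; omega
    rw [e1] at e
    rw [e]
    refine mul_le_mul_of_nonneg_left ?_ (by positivity)
    by_cases hy : -(n : ℤ) + 1 ≤ y ∧ y ≤ n + 1 ∧ ((n : ℤ) + 1 - y) % 2 = 0
    · obtain ⟨l', hl'⟩ : ∃ l' : ℕ, (l' : ℤ) = ((n : ℤ) + 1 - y) / 2 :=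
        ⟨(((n : ℤ) + 1 - y) / 2).toNat, by omega⟩
      have hl'n : l' ≤ n := by omega
      have e2 := az_eq n (n - l') l' (by omega)
      have e3 : (((n - l' : ℕ) : ℤ) + 1 - (l' : ℤ)) = y := by omega
      rw [e3] at e2
      rw [e2]
      exact hmax n l' hl'n
    · rw [az_zero n y hy]
      simp only [Int.cast_zero]
      nlinarith [sq_nonneg (aa (n - ls n) (ls n) : ℝ), sq_nonneg (bb (n - ls n) (ls n) : ℝ)]
  have hD := DD_pos
  have hs2 : Real.sqrt 2 * Real.sqrt 2 = 2 := sqrt_two_sq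
  have hs0 : (0 : ℝ) < Real.sqrt 2 := by positivity
  have hDinv : 1 / DD = 1 / 2 - 1 / (2 * Real.sqrt 2) := by
    rw [div_eq_iff hD.ne']
    unfold DD hh
    field_simp
    nlinarith
  set L : ℕ → ℕ := fun n => ls n + 1 with hLdef
  have hσ : ∀ n : ℕ, (L n : ℝ) - ((n : ℝ) + 1) / DD ∈ Set.Icc (1 - C / 2) (1 + C / 2) := by
    intro n
    have h := hbound n
    rw [abs_le] at h
    push_cast at h
    have e : (L n : ℝ) - ((n : ℝ) + 1) / DD =
        1 - (((n : ℝ) + 1 - 2 * (ls n : ℝ)) - ((n : ℝ) + 1) / Real.sqrt 2) / 2 := by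
      have : ((n : ℝ) + 1) / DD = ((n : ℝ) + 1) * (1 / DD) := by ring
      rw [this, hDinv, hLdef]
      push_cast
      field_simp
      ring
    rw [e, Set.mem_Icc]
    constructor <;> linarith [h.1, h.2]
  set F : Ultrafilter ℕ := Filter.hyperfilter ℕ with hFdef
  have hF : (F : Filter ℕ) ≤ Filter.atTop := Nat.hyperfilter_le_atTop
  obtain ⟨s, -, hs⟩ := isCompact_Icc.ultrafilter_le_nhds'
    (F.map fun n : ℕ => (L n : ℝ) - ((n : ℝ) + 1) / DD)
    (Filter.Eventually.of_forall hσ : ∀ᶠ n in (F : Filter ℕ), _)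
  have hL : Filter.Tendsto (fun n : ℕ => (L n : ℝ) - ((n : ℝ) + 1) / DD) F (nhds s) := hs
  refine contra F hF L s hL ?_ ?_
  · refine Filter.Eventually.of_forall fun n => ?_
    rw [cc_dd_sq]
    have h1 : L n - 1 = ls n := by simp [hLdef]
    rw [h1]
    have h2 := hmax n 0 (Nat.zero_le n)
    rw [bb_z] at h2
    have h3 := sq_nonneg (aa (n - 0) 0 : ℝ)
    have h4 : (0 : ℝ) < (aa (n - ls n) (ls n) : ℝ) ^ 2 + (bb (n - ls n) (ls n) : ℝ) ^ 2 := by
      refine lt_of_lt_of_le ?_ h2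
      push_cast
      linarith
    positivity
  · intro i
    filter_upwards [ev_L hF hL 1] with n hn
    rw [cc_dd_sq, cc_dd_sq]
    have h1 : L n - 1 = ls n := by simp [hLdef]
    rw [h1]
    exact mul_le_mul_of_nonneg_left (hmax n (L n - i) (by omega)) hD.le

end Pool.Agent.X134.FC
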