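import Mathlib

/-!
# Feynman checkers: recurrences of the amplitudes
-/

namespace Pool.Agent.X134.FC

open Finset

/-- the amplitude of the paths with `p + 1` steps to the right, the first and the last step
included, and `l` steps to the left -/
def bb : ℕ → ℕ → ℤ
  | 0, l => if l = 0 then 1 else 0
  | p + 1, l => bb p l - ∑ j ∈ range l, bb p j

/-- the amplitude of the paths with the last step to the left -/
def aa (p l : ℕ) : ℤ := ∑ j ∈ range l, bb p j

lemma bb_succ (p l : ℕ) : bb (p + 1) l = bb p l - aa p l := rfl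

lemma aa_zero (p : ℕ) : aa p 0 = 0 := rfl

lemma aa_succ (p l : ℕ) : aa p (l + 1) = aa p l + bb p l := sum_range_succ _ _

lemma bb_zero_succ (l : ℕ) : bb 0 (l + 1) = 0 := rfl

lemma bb_z (p : ℕ) : bb p 0 = 1 := by
  induction p with
  | zero => rfl
  | succ p ih => rw [bb_succ, ih, aa_zero]; rfl

/-- the two contiguity relations -/
lemma contig (l : ℕ) : (∀ p : ℕ, ((p : ℤ) + 1) * aa (p + 1) l =
      (2 * p + 2 - l) * aa p l + l * bb p l) ∧
    ∀ p : ℕ, ((l : ℤ) + 1) * bb p (l + 1) = -p * aa p l + (2 * l - p) * bb p l := by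
  induction l with
  | zero =>
    have h1 : ∀ p : ℕ, ((p : ℤ) + 1) * aa (p + 1) 0 =
        (2 * p + 2 - (0 : ℕ)) * aa p 0 + (0 : ℕ) * bb p 0 := by
      intro p; simp [aa_zero]
    refine ⟨h1, ?_⟩
    intro p
    induction p with
    | zero => simp [bb_zero_succ]
    | succ p ih =>
      have e1 := aa_succ p 0
      have e2 := bb_succ p 1
      have e3 := bb_z p
      have e4 := bb_z (p + 1)
      have e5 := aa_zero p
      have e6 := aa_zero (p + 1)
      simp only [Nat.zero_add, Nat.cast_zero, zero_add, one_mul, mul_zero, zero_sub] at *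
      rw [e2, ih, e1, e3, e4, e5, e6]
      push_cast
      ring
  | succ l ih =>
    obtain ⟨hI, hII⟩ := ih
    have h1 : ∀ p : ℕ, ((p : ℤ) + 1) * aa (p + 1) (l + 1) =
        (2 * p + 2 - ((l + 1 : ℕ) : ℤ)) * aa p (l + 1) + ((l + 1 : ℕ) : ℤ) * bb p (l + 1) := by
      intro p
      have e1 := hI p
      have e2 := hII p
      have e3 := aa_succ (p + 1) l
      have e4 := aa_succ p l
      have e5 := bb_succ p l
      push_cast
      rw [e3, e4, e5]
      linear_combination e1 - e2
    refine ⟨h1, ?_⟩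
    intro p
    induction p with
    | zero =>
      have e1 := hII 0
      simp only [bb_zero_succ, Nat.cast_zero, neg_zero, zero_mul, mul_zero, add_zero]
    | succ p ihp =>
      have e1 := h1 p
      have e2 := aa_succ (p + 1) (l + 1)
      have e3 := aa_succ p (l + 1)
      have e4 := bb_succ p (l + 1)
      have e5 := bb_succ p (l + 2)
      push_cast at *
      rw [show l + 1 + 1 = l + 2 from rfl] at *
      rw [e5, e3, e4]
      linear_combination ihp + e1

lemma cI (p l : ℕ) : ((p : ℤ) + 1) * aa (p + 1) l = (2 * p + 2 - l) * aa p l + l * bb p l :=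
  (contig l).1 p

lemma cII (p l : ℕ) : ((l : ℤ) + 1) * bb p (l + 1) = -p * aa p l + (2 * l - p) * bb p l :=
  (contig l).2 p

/-- the transfer to the left, first component; `x = p + 1 - l`, `t = p + 1 + l` fixed -/
lemma tA (p l : ℕ) : ((p : ℤ) + 1) * aa p (l + 1) =
    (p + 1) * aa (p + 1) l + (p + 1 - l) * bb (p + 1) l := by
  have e1 := cI p l
  have e2 := aa_succ p l
  have e3 := bb_succ p l
  rw [e2, e3]
  linear_combination e1 * (-1)

/-- the transfer to the left, second component -/
lemma tB (p l : ℕ) : ((p : ℤ) + 1) * (l + 1) * bb p (l + 1) =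
    (p + 1) * (l - p) * aa (p + 1) l +
      ((p + 1) * (2 * l - p) - l * (l - p)) * bb (p + 1) l := by
  have e1 := cI p l
  have e2 := cII p l
  have e3 := bb_succ p l
  rw [e3]
  linear_combination (p + 1 : ℤ) * e2 - (l - p : ℤ) * e1

/-- the amplitudes on the lattice -/
def az : ℕ → ℤ → ℤ × ℤ
  | 0, y => (0, if y = 1 then 1 else 0)
  | n + 1, y => ((az n (y + 1)).1 + (az n (y + 1)).2, (az n (y - 1)).2 - (az n (y - 1)).1)

lemma az_zero (n : ℕ) : ∀ y : ℤ, ¬ (-(n : ℤ) + 1 ≤ y ∧ y ≤ n + 1 ∧ (n + 1 - y) % 2 = 0) →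
    az n y = (0, 0) := by
  induction n with
  | zero =>
    intro y hy
    have : y ≠ 1 := by
      rintro rfl
      exact hy (by norm_num)
    simp [az, this]
  | succ n ih =>
    intro y hy
    have h1 : az n (y + 1) = (0, 0) := ih _ (fun h => hy (by push_cast; omega))
    have h2 : az n (y - 1) = (0, 0) := ih _ (fun h => hy (by push_cast; omega))
    simp [az, h1, h2]

lemma az_eq (n : ℕ) : ∀ p l : ℕ, p + l = n → az n (p + 1 - l) = (aa p l, bb p l) := by
  induction n with
  | zero =>
    intro p l h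
    obtain ⟨rfl, rfl⟩ : p = 0 ∧ l = 0 := by omega
    simp [az, aa_zero, bb]
  | succ n ih =>
    intro p l h
    have h1 : (az (n + 1) (p + 1 - l)).1 = aa p l := by
      show (az n ((p : ℤ) + 1 - l + 1)).1 + (az n ((p : ℤ) + 1 - l + 1)).2 = aa p l
      rcases l with _ | l
      · rw [az_zero n _ (by push_cast; omega), aa_zero]; rfl
      · have e := ih p l (by omega)
        have e2 : (p : ℤ) + 1 - ((l + 1 : ℕ) : ℤ) + 1 = p + 1 - l := by push_cast; ring
        rw [e2, e, aa_succ]
    have h2 : (az (n + 1) (p + 1 - l)).2 = bb p l := by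
      show (az n ((p : ℤ) + 1 - l - 1)).2 - (az n ((p : ℤ) + 1 - l - 1)).1 = bb p l
      rcases p with _ | p
      · rw [az_zero n _ (by push_cast; omega)]
        obtain ⟨l, rfl⟩ : ∃ l', l = l' + 1 := ⟨l - 1, by omega⟩
        rfl
      · have e := ih p l (by omega)
        have e2 : ((p + 1 : ℕ) : ℤ) + 1 - l - 1 = p + 1 - l := by push_cast; ring
        rw [e2, e, bb_succ]
    exact Prod.ext h1 h2

/-- the sum over the paths with a given last step -/
noncomputable def T (n : ℕ) (y : ℤ) (b : Bool) : ℂ :=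
  ∑ s : Fin (n + 1) → Bool, if s 0 = true ∧ ∑ i, (if s i then (1 : ℤ) else -1) = y ∧
    s (Fin.last n) = b then
      (-Complex.I) ^ ((univ.filter (fun i : Fin n => s i.castSucc ≠ s i.succ)).card) else 0

lemma T_zero (y : ℤ) (b : Bool) : T 0 y b = if y = 1 ∧ b = true then 1 else 0 := by
  unfold T
  rw [← Equiv.sum_comp (Equiv.funUnique (Fin 1) Bool).symm]
  simp only [Equiv.funUnique_symm_apply, uniqueElim_const, Fin.sum_univ_one, univ_eq_empty,
    filter_empty, card_empty, pow_zero, Fintype.sum_bool]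
  cases b <;> simp [eq_comm]

lemma card_snoc (n : ℕ) (s : Fin (n + 1) → Bool) (b : Bool) :
    (univ.filter (fun i : Fin (n + 1) => (Fin.snoc s b : Fin (n + 2) → Bool) i.castSucc ≠
      (Fin.snoc s b : Fin (n + 2) → Bool) i.succ)).card =
    (univ.filter (fun i : Fin n => s i.castSucc ≠ s i.succ)).card +
      if s (Fin.last n) ≠ b then 1 else 0 := by
  rw [card_filter, card_filter, Fin.sum_univ_castSucc]
  congr 1
  · refine sum_congr rfl fun i _ => ?_
    have e1 : (Fin.snoc s b : Fin (n + 2) → Bool) i.castSucc.castSucc = s i.castSucc := by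
      rw [Fin.snoc_castSucc]
    have e2 : (Fin.snoc s b : Fin (n + 2) → Bool) i.castSucc.succ = s i.succ := by
      rw [Fin.succ_castSucc, Fin.snoc_castSucc]
    rw [e1, e2]
  · have e1 : (Fin.snoc s b : Fin (n + 2) → Bool) (Fin.last n).castSucc = s (Fin.last n) := by
      rw [Fin.snoc_castSucc]
    have e2 : (Fin.snoc s b : Fin (n + 2) → Bool) (Fin.last n).succ = b := by
      rw [Fin.succ_last, Fin.snoc_last]
    rw [e1, e2]

lemma T_succ (n : ℕ) (y : ℤ) (b : Bool) : T (n + 1) y b =
    T n (y - (if b then 1 else -1)) b + (-Complex.I) * T n (y - (if b then 1 else -1)) (!b) := by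
  unfold T
  rw [← Equiv.sum_comp (Fin.snocEquiv (fun _ : Fin (n + 2) => Bool)), Fintype.sum_prod_type,
    sum_comm, mul_sum, ← sum_add_distrib]
  refine sum_congr rfl fun s _ => ?_
  rw [Fin.snocEquiv] 
  simp only [Equiv.coe_fn_mk]
  have hs0 : ∀ c : Bool, (Fin.snoc s c : Fin (n + 2) → Bool) 0 = s 0 := by
    intro c
    exact Fin.snoc_castSucc (α := fun _ => Bool) c s 0
  have hsum : ∀ c : Bool, ∑ i, (if (Fin.snoc s c : Fin (n + 2) → Bool) i then (1 : ℤ) else -1) =
      ∑ i, (if s i then (1 : ℤ) else -1) + (if c then 1 else -1) := by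
    intro c
    rw [Fin.sum_univ_castSucc]
    simp only [Fin.snoc_castSucc, Fin.snoc_last]
  have hl : ∀ c : Bool, (Fin.snoc s c : Fin (n + 2) → Bool) (Fin.last (n + 1)) = c := fun c =>
    Fin.snoc_last _ _
  simp only [hs0, hsum, hl, card_snoc]
  by_cases h0 : s 0 = true
  · by_cases hy : ∑ i, (if s i then (1 : ℤ) else -1) = y - (if b then 1 else -1)
    · have hy' : ∑ i, (if s i then (1 : ℤ) else -1) + (if b then 1 else -1) = y := by
        rw [hy]; ring
      cases b
      · cases hb : s (Fin.last n)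
        · simp [h0, hy, hy', hb, pow_succ, Fintype.sum_bool]
        · simp [h0, hy, hy', hb, pow_succ, Fintype.sum_bool]
          ring
      · cases hb : s (Fin.last n)
        · simp [h0, hy, hy', hb, pow_succ, Fintype.sum_bool]
          ring
        · simp [h0, hy, hy', hb, pow_succ, Fintype.sum_bool]
    · have hy' : ∑ i, (if s i then (1 : ℤ) else -1) + (if b then 1 else -1) ≠ y := by
        intro h; apply hy; rw [← h]; ring
      generalize ∑ i, (if s i then (1 : ℤ) else -1) = S at hy hy' ⊢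
      cases b
      · have h1 : ¬ S = y + 1 := by simpa using hy
        have h2 : ¬ S + -1 = y := by simpa using hy'
        simp [h1, h2]
      · have h1 : ¬ S = y - 1 := by simpa using hy
        have h2 : ¬ S + 1 = y := by simpa using hy'
        simp [h1, h2]
  · simp [h0]

lemma T_eq (n : ℕ) : ∀ y : ℤ, T n y true = ((az n y).2 : ℂ) ∧
    T n y false = -Complex.I * ((az n y).1 : ℂ) := by
  induction n with
  | zero =>
    intro y
    rw [T_zero, T_zero]
    constructor
    · by_cases h : y = 1 <;> simp [az, h]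
    · simp [az]
  | succ n ih =>
    intro y
    rw [T_succ, T_succ]
    simp only [if_true, Bool.false_eq_true, if_false, Bool.not_true, Bool.not_false]
    rw [show y - -1 = y + 1 by ring]
    obtain ⟨h1, h2⟩ := ih (y - 1)
    obtain ⟨h3, h4⟩ := ih (y + 1)
    rw [h1, h2, h3, h4]
    have hI : Complex.I * Complex.I = -1 := Complex.I_mul_I
    constructor
    · show _ = (((az n (y - 1)).2 - (az n (y - 1)).1 : ℤ) : ℂ)
      push_cast
      linear_combination ((az n (y - 1)).1 : ℂ) * hI
    · show _ = -Complex.I * (((az n (y + 1)).1 + (az n (y + 1)).2 : ℤ) : ℂ)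
      push_cast
      ring

lemma normSq_eq (n : ℕ) (y : ℤ) :
    ‖∑ s ∈ Finset.univ.filter
      (fun s : Fin (n+1) → Bool =>
        s 0 = true ∧ ∑ i, (if s i then (1:ℤ) else -1) = y),
      (-Complex.I) ^ ((Finset.univ.filter
        (fun i : Fin n => s i.castSucc ≠ s i.succ)).card)‖ ^ 2 =
      ((az n y).1 : ℝ) ^ 2 + ((az n y).2 : ℝ) ^ 2 := by
  have h : (∑ s ∈ Finset.univ.filter
      (fun s : Fin (n+1) → Bool =>
        s 0 = true ∧ ∑ i, (if s i then (1:ℤ) else -1) = y),
      (-Complex.I) ^ ((Finset.univ.filter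
        (fun i : Fin n => s i.castSucc ≠ s i.succ)).card)) = T n y true + T n y false := by
    unfold T
    rw [← sum_add_distrib, sum_filter]
    refine sum_congr rfl fun s _ => ?_
    by_cases h0 : s 0 = true ∧ ∑ i, (if s i then (1:ℤ) else -1) = y
    · cases hl : s (Fin.last n)
      · simp [h0]
      · simp [h0]
    · have h1 : ¬ (s 0 = true ∧ ∑ i, (if s i then (1:ℤ) else -1) = y ∧ s (Fin.last n) = true) :=
        fun h => h0 ⟨h.1, h.2.1⟩
      have h2 : ¬ (s 0 = true ∧ ∑ i, (if s i then (1:ℤ) else -1) = y ∧ s (Fin.last n) = false) :=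
        fun h => h0 ⟨h.1, h.2.1⟩
      rw [if_neg h0, if_neg h1, if_neg h2, add_zero]
  rw [h, (T_eq n y).1, (T_eq n y).2, Complex.sq_norm, Complex.normSq_apply]
  simp
  ring

end Pool.Agent.X134.FC
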