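import Pool.Agent.X134.FC.Step

/-!
# Feynman checkers: limits of the transfer at the turning point
-/

namespace Pool.Agent.X134.FC

open Filter Topology

lemma inv_lim {F : Filter ℕ} (hF : F ≤ atTop) :
    Tendsto (fun n : ℕ => 1 / ((n : ℝ) + 1)) F (𝓝 0) :=
  tendsto_one_div_add_atTop_nhds_zero_nat.mono_left hF

lemma tt_ne (n : ℕ) : (n : ℝ) + 1 ≠ 0 := by positivity

lemma DD_sub : DD - 1 = hh ^ 2 := by rw [hh_sq, DD]; ring

/-- the alternative form of the coefficients -/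
lemma w11_alg (t l r m : ℝ) (ht : t ≠ 0) :
    t * (-((1 - m * r - hh * r) + hh * (m + hh) * l) / DD - 1) =
      (t * (r - 2 * hh) * (hh + 2 * gg) + t * (m - 2 * gg) * hh - t * (l - 1) * (2 + hh ^ 2) +
        1 / t * (t * (m - 2 * gg) * (t * (r - 2 * hh)) - hh * (t * (l - 1)) * (t * (m - 2 * gg)))) / DD := by
  have hD : DD ≠ 0 := DD_pos.ne'
  have h1 := hg
  have h2 := hh_sq
  have h3 := gg_eq
  field_simp
  unfold DD at *
  rw [h3] at *
  ring_nf
  rw [h2]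
  ring

lemma w21_alg (t l r m : ℝ) (ht : t ≠ 0) :
    t * (-((hh - hh * m * r + r) - hh * l * (1 - hh * m)) / DD) =
      (t * (r - 2 * hh) + t * (m - 2 * gg) * hh ^ 2 - t * (l - 1) * hh +
        1 / t * (hh * (t * (m - 2 * gg)) * (t * (r - 2 * hh)) -
          hh ^ 2 * (t * (l - 1)) * (t * (m - 2 * gg)))) / DD := by
  have hD : DD ≠ 0 := DD_pos.ne'
  have h1 := hg
  have h2 := hh_sq
  have h3 := gg_eq
  field_simp
  unfold DD at *
  rw [h3] at *
  ring_nf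
  have h4 : hh ^ 3 = 5 * hh + 2 := by nlinarith
  rw [h4, h2]
  ring

section
variable {F : Filter ℕ} (hF : F ≤ atTop) {L : ℕ → ℝ} {s : ℝ}
  (hL : Tendsto (fun n : ℕ => L n - ((n : ℝ) + 1) / DD) F (𝓝 s))

include hF hL

lemma L_lim : Tendsto (fun n : ℕ => L n / ((n : ℝ) + 1)) F (𝓝 (1 / DD)) := by
  have h1 := (hL.mul (inv_lim hF)).add_const (1 / DD)
  rw [mul_zero, zero_add] at h1
  refine h1.congr fun n => ?_
  have := tt_ne n
  have hD : DD ≠ 0 := DD_pos.ne'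
  field_simp
  ring

lemma Lm_lim : Tendsto (fun n : ℕ => ((n : ℝ) + 1) / (L n - 1)) F (𝓝 DD) := by
  have h1 := (L_lim hF hL).sub (inv_lim hF)
  rw [sub_zero] at h1
  have hD : DD ≠ 0 := DD_pos.ne'
  have h2 := h1.inv₀ (by positivity)
  rw [one_div, inv_inv] at h2
  refine h2.congr fun n => ?_
  have := tt_ne n
  rw [← sub_div, inv_div]

lemma Lne : ∀ᶠ n : ℕ in F, L n - 1 ≠ 0 := by
  have h := Lm_lim hF hL
  have h2 := h.eventually_ne DD_pos.ne'
  filter_upwards [h2] with n hn h0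
  rw [h0, div_zero] at hn
  exact hn rfl

lemma Rm_lim : Tendsto (fun n : ℕ => ((n : ℝ) + 1) / ((n : ℝ) + 1 - L n)) F (𝓝 (DD / hh ^ 2)) := by
  have h1 := (L_lim hF hL).const_sub 1
  have hD : DD ≠ 0 := DD_pos.ne'
  have hh' := hh_pos.ne'
  have e : 1 - 1 / DD = hh ^ 2 / DD := by
    rw [← DD_sub]; field_simp
  rw [e] at h1
  have h2 := h1.inv₀ (by positivity)
  rw [inv_div] at h2
  refine h2.congr fun n => ?_
  have := tt_ne n
  rw [show 1 - L n / ((n : ℝ) + 1) = ((n : ℝ) + 1 - L n) / ((n : ℝ) + 1) by field_simp, inv_div]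

lemma Rne : ∀ᶠ n : ℕ in F, (n : ℝ) + 1 - L n ≠ 0 := by
  have h := Rm_lim hF hL
  have hh' := hh_pos.ne'
  have hD : DD ≠ 0 := DD_pos.ne'
  have h2 := h.eventually_ne (div_ne_zero hD (by positivity))
  filter_upwards [h2] with n hn h0
  rw [h0, div_zero] at hn
  exact hn rfl

lemma lam_lim : Tendsto (fun n : ℕ => ((n : ℝ) + 1) * (lam ((n : ℝ) + 1) (L n) - 1)) F (𝓝 DD) := by
  refine (Lm_lim hF hL).congr' ?_
  filter_upwards [Lne hF hL] with n hn
  unfold lam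
  field_simp
  ring

lemma rho_lim : Tendsto (fun n : ℕ => ((n : ℝ) + 1) * (rho ((n : ℝ) + 1) (L n) - 2 * hh)) F
    (𝓝 (DD * (-DD * s + 2 * hh))) := by
  have h1 := (Lm_lim hF hL).mul ((hL.const_mul (-DD)).add_const (2 * hh))
  refine h1.congr' ?_
  filter_upwards [Lne hF hL] with n hn
  have hD : DD ≠ 0 := DD_pos.ne'
  unfold rho
  field_simp
  unfold DD
  ring

lemma mu_lim : Tendsto (fun n : ℕ => ((n : ℝ) + 1) * (mu ((n : ℝ) + 1) (L n) - 2 * gg)) F
    (𝓝 (DD / hh ^ 2 * ((-DD * s + hh ^ 2) * gg ^ 2))) := by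
  have h1 := (Rm_lim hF hL).mul (((hL.const_mul (-DD)).add_const (hh ^ 2)).mul_const (gg ^ 2))
  refine h1.congr' ?_
  filter_upwards [Rne hF hL] with n hn
  have hD : DD ≠ 0 := DD_pos.ne'
  unfold mu
  have e1 : hh ^ 2 * gg ^ 2 = 1 := by rw [← mul_pow, hg, one_pow]
  have e2 : 2 * gg = 1 - gg ^ 2 := by rw [gg_eq]; nlinarith [hh_sq]
  have e3 : -DD * (L n - ((n : ℝ) + 1) / DD) = (n : ℝ) + 1 - (1 + hh ^ 2) * L n := by
    have : DD = 1 + hh ^ 2 := by rw [← DD_sub]; ring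
    rw [← this]
    field_simp
    ring
  rw [e3, e2]
  rw [div_mul_eq_mul_div, ← mul_div_assoc', eq_comm]
  field_simp
  linear_combination (L n - 1) * e1

lemma t_lim {f : ℕ → ℝ} {a b : ℝ} (h : Tendsto (fun n : ℕ => ((n : ℝ) + 1) * (f n - a)) F (𝓝 b)) :
    Tendsto f F (𝓝 a) := by
  have h1 := (h.mul (inv_lim hF)).add_const a
  rw [mul_zero, zero_add] at h1
  refine h1.congr fun n => ?_
  have := tt_ne n
  field_simp
  ring

/-- `4√2` -/
lemma w12_lim : Tendsto (fun n : ℕ => w12 ((n : ℝ) + 1) (L n)) F (𝓝 (4 * √2)) := by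
  have h1 := t_lim hF hL (lam_lim hF hL)
  have h2 := t_lim hF hL (rho_lim hF hL)
  have h3 := t_lim hF hL (mu_lim hF hL)
  have h4 := ((((h3.mul h2).const_sub 1).sub (h2.const_mul hh)).const_mul hh).sub
    ((h3.add_const hh).mul h1)
  have h5 := h4.neg.div_const DD
  have e : -(hh * (1 - 2 * gg * (2 * hh) - hh * (2 * hh)) - (2 * gg + hh) * 1) / DD = 4 * √2 := by
    have hD : DD ≠ 0 := DD_pos.ne'
    field_simp
    unfold DD gg hh
    ring_nf
    rw [show √2 ^ 3 = 2 * √2 by rw [pow_succ, Real.sq_sqrt (by norm_num)],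
      Real.sq_sqrt (by norm_num)]
    ring
  rw [e] at h5
  exact h5

lemma w22_lim : Tendsto (fun n : ℕ => w22 ((n : ℝ) + 1) (L n)) F (𝓝 1) := by
  have h1 := t_lim hF hL (lam_lim hF hL)
  have h2 := t_lim hF hL (rho_lim hF hL)
  have h3 := t_lim hF hL (mu_lim hF hL)
  have h4 := ((((h3.const_mul hh).mul h2).const_sub hh).add h2).const_mul hh
  have h5 := h1.mul ((h3.const_mul hh).const_sub 1)
  have h6 := (h4.add h5).neg.div_const DD
  have e : -(hh * (hh - hh * (2 * gg) * (2 * hh) + 2 * hh) + 1 * (1 - hh * (2 * gg))) / DD = 1 := by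
    have hD : DD ≠ 0 := DD_pos.ne'
    field_simp
    unfold DD gg hh
    ring_nf
    rw [show √2 ^ 4 = 4 by rw [show 4 = 2 * 2 by rfl, pow_mul, Real.sq_sqrt (by norm_num)]; norm_num,
      show √2 ^ 3 = 2 * √2 by rw [pow_succ, Real.sq_sqrt (by norm_num)],
      Real.sq_sqrt (by norm_num)]
    ring
  rw [e] at h6
  exact h6

lemma w11_lim : Tendsto (fun n : ℕ => ((n : ℝ) + 1) * (w11 ((n : ℝ) + 1) (L n) - 1)) F
    (𝓝 (-16 * √2 * s + 3 * √2 + 4)) := by
  have h1 := lam_lim hF hL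
  have h2 := rho_lim hF hL
  have h3 := mu_lim hF hL
  have h4 := (((h2.mul_const (hh + 2 * gg)).add (h3.mul_const hh)).sub
    (h1.mul_const (2 + hh ^ 2))).add ((inv_lim hF).mul
      ((h3.mul h2).sub ((h1.const_mul hh).mul h3)))
  have h5 := h4.div_const DD
  have e : (DD * (-DD * s + 2 * hh) * (hh + 2 * gg) + DD / hh ^ 2 * ((-DD * s + hh ^ 2) * gg ^ 2) * hh -
            DD * (2 + hh ^ 2) +
          0 * (DD / hh ^ 2 * ((-DD * s + hh ^ 2) * gg ^ 2) * (DD * (-DD * s + 2 * hh)) -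
              hh * DD * (DD / hh ^ 2 * ((-DD * s + hh ^ 2) * gg ^ 2)))) / DD =
      -16 * √2 * s + 3 * √2 + 4 := by
    have hD : DD ≠ 0 := DD_pos.ne'
    have hh' := hh_pos.ne'
    have e1 : DD / hh ^ 2 = DD * gg ^ 2 := by
      rw [div_eq_iff (by positivity), mul_assoc, ← mul_pow, mul_comm gg hh, hg]; ring
    rw [e1, zero_mul, add_zero]
    field_simp
    unfold DD gg hh
    ring_nf
    have q2 : √2 ^ 2 = (2 : ℝ) := Real.sq_sqrt (by norm_num)
    have q3 : √2 ^ 3 = 2 * √2 := by rw [pow_succ, q2]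
    have q4 : √2 ^ 4 = 4 := by rw [pow_succ, q3]; nlinarith [q2]
    have q5 : √2 ^ 5 = 4 * √2 := by rw [pow_succ, q4]
    have q6 : √2 ^ 6 = 8 := by rw [pow_succ, q5]; nlinarith [q2]
    have q7 : √2 ^ 7 = 8 * √2 := by rw [pow_succ, q6]
    rw [q7, q6, q5, q4, q3, q2]
    ring
  rw [e] at h5
  refine h5.congr fun n => ?_
  unfold w11
  rw [w11_alg _ _ _ _ (tt_ne n)]

lemma w21_lim : Tendsto (fun n : ℕ => ((n : ℝ) + 1) * w21 ((n : ℝ) + 1) (L n)) F
    (𝓝 (-8 * s + √2 + 2)) := by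
  have h1 := lam_lim hF hL
  have h2 := rho_lim hF hL
  have h3 := mu_lim hF hL
  have h4 := ((h2.add (h3.mul_const (hh ^ 2))).sub
    (h1.mul_const hh)).add ((inv_lim hF).mul
      (((h3.const_mul hh).mul h2).sub ((h1.const_mul (hh ^ 2)).mul h3)))
  have h5 := h4.div_const DD
  have e : (DD * (-DD * s + 2 * hh) + DD / hh ^ 2 * ((-DD * s + hh ^ 2) * gg ^ 2) * hh ^ 2 -
            DD * hh +
          0 * (hh * (DD / hh ^ 2 * ((-DD * s + hh ^ 2) * gg ^ 2)) * (DD * (-DD * s + 2 * hh)) -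
              hh ^ 2 * DD * (DD / hh ^ 2 * ((-DD * s + hh ^ 2) * gg ^ 2)))) / DD =
      -8 * s + √2 + 2 := by
    have hD : DD ≠ 0 := DD_pos.ne'
    have hh' := hh_pos.ne'
    have e1 : DD / hh ^ 2 = DD * gg ^ 2 := by
      rw [div_eq_iff (by positivity), mul_assoc, ← mul_pow, mul_comm gg hh, hg]; ring
    rw [e1, zero_mul, add_zero]
    field_simp
    unfold DD gg hh
    ring_nf
    have q2 : √2 ^ 2 = (2 : ℝ) := Real.sq_sqrt (by norm_num)
    have q3 : √2 ^ 3 = 2 * √2 := by rw [pow_succ, q2]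
    have q4 : √2 ^ 4 = 4 := by rw [pow_succ, q3]; nlinarith [q2]
    have q5 : √2 ^ 5 = 4 * √2 := by rw [pow_succ, q4]
    have q6 : √2 ^ 6 = 8 := by rw [pow_succ, q5]; nlinarith [q2]
    have q7 : √2 ^ 7 = 8 * √2 := by rw [pow_succ, q6]
    have q8 : √2 ^ 8 = 16 := by rw [pow_succ, q7]; nlinarith [q2]
    rw [q8, q7, q6, q5, q4, q3, q2]
    ring
  rw [e] at h5
  refine h5.congr fun n => ?_
  unfold w21
  rw [w21_alg _ _ _ _ (tt_ne n)]

end

end Pool.Agent.X134.FC
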