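import Pool.Agent.X134.FC.Par

/-!
# Feynman checkers: the equal-sign order parameter near the turning point
-/

namespace Pool.Agent.X134.FC

open Filter Topology Finset

lemma sum_blocks (f : ℕ → ℝ) (b : ℝ) (K : ℕ)
    (h : ∀ k < K, b ≤ ∑ i ∈ range 100, f (100 * k + i)) : b * K ≤ ∑ j ∈ range (100 * K), f j := by
  induction K with
  | zero => simp
  | succ K ih =>
    rw [Nat.mul_succ, sum_range_add]
    have h1 := ih fun k hk => h k (by omega)
    have h2 := h K (by omega)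
    push_cast
    linarith

/-- the sum over the points up to `m` -/
noncomputable def SS (n m : ℕ) : ℝ :=
  ∑ x ∈ (range (m + 1)).filter (fun x => x % 2 = (n + 1) % 2), ff n ((n + 1 - x) / 2)

lemma SS_diff (n m₁ m₂ x₀ K : ℕ) (h1 : m₁ < x₀) (hx : x₀ % 2 = (n + 1) % 2)
    (h2 : K = 0 ∨ x₀ + 200 * K ≤ m₂) (h3 : m₁ ≤ m₂) (b : ℝ)
    (hw : ∀ k < K, b ≤ ∑ i ∈ range 100, ff n ((n + 1 - (x₀ + 200 * k)) / 2 - i)) :
    b * K ≤ SS n m₂ - SS n m₁ := by
  classical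
  unfold SS
  have hsub : (range (m₁ + 1)).filter (fun x => x % 2 = (n + 1) % 2) ⊆
      (range (m₂ + 1)).filter (fun x => x % 2 = (n + 1) % 2) := by
    intro x hx
    rw [mem_filter, mem_range] at hx ⊢
    exact ⟨by omega, hx.2⟩
  rw [← sum_sdiff hsub, add_sub_cancel_right]
  have himg : (range (100 * K)).image (fun j => x₀ + 2 * j) ⊆
      (range (m₂ + 1)).filter (fun x => x % 2 = (n + 1) % 2) \
        (range (m₁ + 1)).filter (fun x => x % 2 = (n + 1) % 2) := by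
    intro x hx'
    rw [mem_image] at hx'
    obtain ⟨j, hj, rfl⟩ := hx'
    rw [mem_range] at hj
    rw [Finset.mem_sdiff, mem_filter, mem_filter, mem_range, mem_range]
    refine ⟨⟨by omega, by omega⟩, fun h => by omega⟩
  refine le_trans ?_ (sum_le_sum_of_subset_of_nonneg himg fun _ _ _ => ff_nonneg _ _)
  rw [sum_image (by intro a _ b _ h; simpa using h)]
  refine sum_blocks (fun j => ff n ((n + 1 - (x₀ + 2 * j)) / 2)) b K fun k hk => ?_
  refine (hw k hk).trans (le_of_eq ?_)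
  refine sum_congr rfl fun i hi => ?_
  congr 1
  omega

/-- the lower bound of the increments of the order parameter -/
theorem SS_lower : ∃ η : ℝ, 0 < η ∧ ∀ v₁ v₂ : ℝ, 0 < v₁ → v₁ < v₂ → v₂ < 1 / √2 →
    1 / √2 - η < v₁ → ∀ᶠ n : ℕ in atTop, 0.73 * (v₂ - v₁) - 150 / ((n : ℝ) + 1) ≤
      2 / ((n : ℝ) + 1) * (SS n ⌊v₂ * ((n : ℝ) + 1)⌋₊ - SS n ⌊v₁ * ((n : ℝ) + 1)⌋₊) := by
  obtain ⟨η, hη, T, hT⟩ := windows
  refine ⟨η, hη, fun v₁ v₂ h0 h12 h2 h1 => ?_⟩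
  filter_upwards [eventually_ge_atTop T] with n hn
  have ht : (0 : ℝ) < (n : ℝ) + 1 := by positivity
  set t : ℝ := (n : ℝ) + 1 with htdef
  set m₁ := ⌊v₁ * t⌋₊ with hm₁
  set m₂ := ⌊v₂ * t⌋₊ with hm₂
  have h3 : m₁ ≤ m₂ := Nat.floor_mono (by nlinarith)
  have f1 : (m₁ : ℝ) ≤ v₁ * t := Nat.floor_le (by positivity)
  have f1' : v₁ * t < m₁ + 1 := Nat.lt_floor_add_one _
  have f2 : (m₂ : ℝ) ≤ v₂ * t := Nat.floor_le (by nlinarith)
  have f2' : v₂ * t < m₂ + 1 := Nat.lt_floor_add_one _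
  obtain ⟨x₀, hx1, hx2, hx3⟩ : ∃ x₀ : ℕ, m₁ < x₀ ∧ x₀ ≤ m₁ + 2 ∧ x₀ % 2 = (n + 1) % 2 := by
    by_cases h : (m₁ + 1) % 2 = (n + 1) % 2
    · exact ⟨m₁ + 1, by omega, by omega, h⟩
    · exact ⟨m₁ + 2, by omega, by omega, by omega⟩
  set K := (m₂ - x₀) / 200 with hK
  have hv2 : v₂ < 1 := by
    refine h2.trans ?_
    rw [div_lt_one (by positivity)]
    rw [Real.lt_sqrt (by norm_num)]; norm_num
  have hD : 1 / DD = 1 / 2 - 1 / (2 * √2) := by
    have hD := DD_pos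
    rw [div_eq_iff hD.ne']
    unfold DD hh
    field_simp
    nlinarith [sqrt_two_sq]
  have hm2n : m₂ ≤ n := by
    have : (m₂ : ℝ) < ((n + 1 : ℕ) : ℝ) := by push_cast; nlinarith
    have := Nat.cast_lt.1 this
    omega
  have key := SS_diff n m₁ m₂ x₀ K hx1 hx3 (by omega) h3 73 (by
    intro k hk
    apply hT n hn
    have hle : x₀ + 200 * k ≤ m₂ := by omega
    have hcast : (((n + 1 - (x₀ + 200 * k)) / 2 : ℕ) : ℝ) = (t - (x₀ + 200 * k)) / 2 := by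
      obtain ⟨q, hq⟩ : ∃ q, n + 1 - (x₀ + 200 * k) = 2 * q := ⟨(n + 1 - (x₀ + 200 * k)) / 2, by omega⟩
      rw [hq, Nat.mul_div_cancel_left _ (by norm_num)]
      have hq' : ((2 * q : ℕ) : ℝ) = ((n + 1 : ℕ) : ℝ) - ((x₀ + 200 * k : ℕ) : ℝ) := by
        rw [← hq, Nat.cast_sub (by omega)]
      push_cast at hq'
      rw [htdef]
      linarith
    rw [hcast, hD]
    have hle' : (x₀ : ℝ) + 200 * k ≤ v₂ * t := by
      refine le_trans ?_ f2
      exact_mod_cast hle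
    have hge' : v₁ * t ≤ (x₀ : ℝ) + 200 * k := by
      have : (m₁ : ℝ) + 1 ≤ x₀ := by exact_mod_cast hx1
      have : (0 : ℝ) ≤ 200 * k := by positivity
      linarith
    have e : (t - ((x₀ : ℝ) + 200 * k)) / 2 / t - (1 / 2 - 1 / (2 * √2)) =
        (1 / √2 - ((x₀ : ℝ) + 200 * k) / t) / 2 := by
      field_simp
      ring
    have a1 : ((x₀ : ℝ) + 200 * k) / t ≤ v₂ := by rwa [div_le_iff₀ ht]
    have a2 : v₁ ≤ ((x₀ : ℝ) + 200 * k) / t := by rwa [le_div_iff₀ ht]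
    rw [e, abs_lt]
    constructor <;> linarith)
  have hKbig : (v₂ - v₁) * t - 202 ≤ 200 * (K : ℝ) := by
    have h5 : m₂ ≤ x₀ + 200 * K + 199 := by omega
    have h6 : (m₂ : ℝ) ≤ x₀ + 200 * K + 199 := by exact_mod_cast h5
    have h7 : (x₀ : ℝ) ≤ m₁ + 2 := by exact_mod_cast hx2
    linarith
  have h8 : 0.73 * (v₂ - v₁) - 150 / t ≤ 2 / t * (73 * K) := by
    rw [← sub_nonneg]
    have : 2 / t * (73 * K) - (0.73 * (v₂ - v₁) - 150 / t) =
        (146 * K - 0.73 * (v₂ - v₁) * t + 150) / t := by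
      field_simp
      ring
    rw [this]
    apply div_nonneg _ ht.le
    nlinarith
  exact h8.trans (mul_le_mul_of_nonneg_left key (by positivity))

/-- the conjectured limit -/
noncomputable def FF (v : ℝ) : ℝ :=
  1 / 2 * (1 + v - √(1 - v ^ 2) + Real.log ((1 + √(1 - v ^ 2)) / 2))

lemma FF_deriv (v : ℝ) (h0 : 0 < v) (h1 : v < 1 / √2) :
    HasDerivAt FF (1 / 2 * (1 + v / (1 + √(1 - v ^ 2)))) v ∧
      1 / 2 * (1 + v / (1 + √(1 - v ^ 2))) ≤ 0.72 := by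
  have hs2 : (0 : ℝ) < √2 := by positivity
  have hv : v * √2 < 1 := by rwa [lt_div_iff₀ hs2] at h1
  have hv2 : v ^ 2 < 1 / 2 := by
    have h3 : (v * √2) ^ 2 < 1 := by
      rw [sq_lt_one_iff_abs_lt_one, abs_of_nonneg (by positivity)]; exact hv
    rw [mul_pow, Real.sq_sqrt (by norm_num)] at h3
    linarith
  have hw2 : (0 : ℝ) < 1 - v ^ 2 := by linarith
  have hw : 0 < √(1 - v ^ 2) := Real.sqrt_pos.2 hw2
  constructor
  · have d1 : HasDerivAt (fun v : ℝ => 1 - v ^ 2) (-(2 * v)) v := by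
      have := (hasDerivAt_pow 2 v).const_sub 1
      simpa using this
    have d2 := d1.sqrt hw2.ne'
    have d3 : HasDerivAt (fun v : ℝ => (1 + √(1 - v ^ 2)) / 2)
        (-(2 * v) / (2 * √(1 - v ^ 2)) / 2) v := (d2.const_add 1).div_const 2
    have d4 := d3.log (by positivity)
    have d5 := ((((hasDerivAt_id v).const_add 1).sub d2).add d4).const_mul (1 / 2)
    refine d5.congr_deriv ?_
    field_simp
    ring
  · have hw3 : (7 : ℝ) / 10 ≤ √(1 - v ^ 2) := by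
      apply Real.le_sqrt_of_sq_le
      norm_num
      linarith
    have hv3 : v ≤ 71 / 100 + 0 := by
      nlinarith
    have : v / (1 + √(1 - v ^ 2)) ≤ 0.44 := by
      rw [div_le_iff₀ (by positivity)]
      nlinarith
    linarith

lemma FF_upper (v₁ v₂ : ℝ) (h0 : 0 < v₁) (h12 : v₁ < v₂) (h2 : v₂ < 1 / √2) :
    FF v₂ - FF v₁ ≤ 0.72 * (v₂ - v₁) := by
  have hd : ∀ v ∈ Set.Icc v₁ v₂, HasDerivAt FF (1 / 2 * (1 + v / (1 + √(1 - v ^ 2)))) v := fun v hv =>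
    (FF_deriv v (h0.trans_le hv.1) (hv.2.trans_lt h2)).1
  obtain ⟨c, hc, hc'⟩ := exists_hasDerivAt_eq_slope FF _ h12
    (fun v hv => (hd v hv).continuousAt.continuousWithinAt)
    (fun v hv => hd v ⟨hv.1.le, hv.2.le⟩)
  have h3 := (FF_deriv c (h0.trans hc.1) (hc.2.trans h2)).2
  rw [hc', div_le_iff₀ (by linarith)] at h3
  exact h3

end Pool.Agent.X134.FC
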