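import Pool.Agent.X134.FC.Step

/-!
# Feynman checkers: windows of a hundred points near the turning point
-/

namespace Pool.Agent.X134.FC

open Filter Topology Finset

/-- the probability of the last step to the right -/
noncomputable def ff (n L : ℕ) : ℝ :=
  (bb (n - L) L : ℝ) ^ 2 / ((aa (n - L) L : ℝ) ^ 2 + (bb (n - L) L : ℝ) ^ 2)

lemma ff_nonneg (n L : ℕ) : 0 ≤ ff n L := by unfold ff; positivity

lemma ff_eq (n L : ℕ) : ff n L = (dd n L - hh * cc n L) ^ 2 / (DD * (cc n L ^ 2 + dd n L ^ 2)) := by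
  have h1 := cc_dd_sq n L
  have h2 : dd n L - hh * cc n L = (-1) ^ L * (DD * bb (n - L) L) := by
    unfold dd cc DD
    linear_combination ((-1) ^ L * (bb (n - L) L : ℝ)) * hh_sq
  have hD := DD_pos.ne'
  rw [h1, h2, mul_pow, ← pow_mul, mul_comm L 2, pow_mul]
  norm_num
  unfold ff
  rw [mul_pow, ← mul_assoc, ← sq, mul_div_mul_left _ _ (by positivity)]

/-- the amplitudes do not vanish -/
lemma nz0 (l : ℕ) : ∀ p : ℕ, aa p (l + 1) ≠ 0 ∨ bb p (l + 1) ≠ 0 := by
  induction l with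
  | zero =>
    intro p
    left
    rw [aa_succ, aa_zero, bb_z]
    norm_num
  | succ l ih =>
    intro p
    by_contra hcon
    push Not at hcon
    obtain ⟨h1, h2⟩ := hcon
    have hB := step_B p (l + 1)
    have hA := step_A p (l + 1)
    rw [h1, h2] at hB
    have hb : bb (p + 1) (l + 1) = 0 := by
      have h3 : ((l + 1 : ℕ) : ℤ) * bb (p + 1) (l + 1) = 0 := by rw [hB]; ring
      rcases mul_eq_zero.1 h3 with h | h
      · exact absurd h (by positivity)
      · exact h
    rw [h1, hb] at hA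
    have ha : aa (p + 1) (l + 1) = 0 := by
      have h3 : ((p : ℤ) + 1) * aa (p + 1) (l + 1) = 0 := by rw [hA]; ring
      rcases mul_eq_zero.1 h3 with h | h
      · exact absurd h (by positivity)
      · exact h
    rcases ih (p + 1) with h | h
    · exact h ha
    · exact h hb

lemma nzsq (n L : ℕ) (h1 : 1 ≤ L) : 0 < (aa (n - L) L : ℝ) ^ 2 + (bb (n - L) L : ℝ) ^ 2 := by
  obtain ⟨l, rfl⟩ : ∃ l, L = l + 1 := ⟨L - 1, by omega⟩
  rcases nz0 l (n - (l + 1)) with h | h
  · have : (aa (n - (l + 1)) (l + 1) : ℝ) ≠ 0 := by exact_mod_cast h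
    positivity
  · have : (bb (n - (l + 1)) (l + 1) : ℝ) ≠ 0 := by exact_mod_cast h
    positivity

lemma nz (n L : ℕ) (h1 : 1 ≤ L) (_ : L ≤ n) : cc n L ≠ 0 ∨ dd n L ≠ 0 := by
  by_contra hcon
  push Not at hcon
  have h := cc_dd_sq n L
  rw [hcon.1, hcon.2] at h
  have h2 := mul_pos DD_pos (nzsq n L h1)
  rw [← h] at h2
  norm_num at h2

section
variable {F : Filter ℕ} {n : ℕ → ℕ} (hn : Tendsto n F atTop)

include hn

lemma inv_lim' : Tendsto (fun m : ℕ => 1 / ((n m : ℝ) + 1)) F (𝓝 0) :=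
  tendsto_one_div_add_atTop_nhds_zero_nat.comp hn

variable {L : ℕ → ℝ} (hL : Tendsto (fun m : ℕ => L m / ((n m : ℝ) + 1)) F (𝓝 (1 / DD)))

include hL

lemma lam_lim' : Tendsto (fun m : ℕ => lam ((n m : ℝ) + 1) (L m)) F (𝓝 1) := by
  have hD : DD ≠ 0 := DD_pos.ne'
  have h1 := hL.div (hL.sub (inv_lim' hn)) (by rw [sub_zero]; positivity)
  rw [sub_zero, div_self (by positivity)] at h1
  refine h1.congr fun m => ?_
  have := (show ((n m : ℝ) + 1) ≠ 0 by positivity)
  simp only [Pi.div_apply]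
  rw [← sub_div, div_div_div_cancel_right₀ this]
  rfl

lemma rho_lim' : Tendsto (fun m : ℕ => rho ((n m : ℝ) + 1) (L m)) F (𝓝 (2 * hh)) := by
  have hD : DD ≠ 0 := DD_pos.ne'
  have h1 := ((hL.const_mul 2).const_sub 1).div (hL.sub (inv_lim' hn)) (by rw [sub_zero]; positivity)
  have e : (1 - 2 * (1 / DD)) / (1 / DD - 0) = 2 * hh := by
    rw [sub_zero]
    have : DD = 2 + 2 * hh := rfl
    field_simp
    rw [this]; ring
  rw [e] at h1
  refine h1.congr fun m => ?_
  have ht := (show ((n m : ℝ) + 1) ≠ 0 by positivity)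
  simp only [Pi.div_apply]
  rw [← sub_div, show 1 - 2 * (L m / ((n m : ℝ) + 1)) = ((n m : ℝ) + 1 - 2 * L m) / ((n m : ℝ) + 1) by
    field_simp, div_div_div_cancel_right₀ ht]
  rfl

lemma mu_lim' : Tendsto (fun m : ℕ => mu ((n m : ℝ) + 1) (L m)) F (𝓝 (2 * gg)) := by
  have hD : DD ≠ 0 := DD_pos.ne'
  have hh' := hh_pos.ne'
  have e0 : 1 - 1 / DD = hh ^ 2 / DD := by
    rw [eq_div_iff hD, sub_mul, one_div, inv_mul_cancel₀ hD, hh_sq]
    unfold DD
    ring
  have h1 := (((hL.const_mul 2).const_sub 1).add (inv_lim' hn)).div (hL.const_sub 1)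
    (by rw [e0]; positivity)
  have e : (1 - 2 * (1 / DD) + 0) / (1 - 1 / DD) = 2 * gg := by
    rw [e0, add_zero, div_eq_iff (by positivity)]
    have h3 : hh * gg = 1 := hg
    have : DD = 2 + 2 * hh := rfl
    field_simp
    have h4 : 2 * gg * hh ^ 2 = 2 * hh := by rw [sq]; linear_combination 2 * hh * h3
    rw [h4, this]; ring
  rw [e] at h1
  refine h1.congr fun m => ?_
  have ht := (show ((n m : ℝ) + 1) ≠ 0 by positivity)
  simp only [Pi.div_apply]
  rw [show 1 - 2 * (L m / ((n m : ℝ) + 1)) + 1 / ((n m : ℝ) + 1) =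
      ((n m : ℝ) + 1 - 2 * L m + 1) / ((n m : ℝ) + 1) by field_simp,
    show 1 - L m / ((n m : ℝ) + 1) = ((n m : ℝ) + 1 - L m) / ((n m : ℝ) + 1) by field_simp,
    div_div_div_cancel_right₀ ht]
  rfl

lemma w11_lim' : Tendsto (fun m : ℕ => w11 ((n m : ℝ) + 1) (L m)) F (𝓝 1) := by
  have h1 := lam_lim' hn hL
  have h2 := rho_lim' hn hL
  have h3 := mu_lim' hn hL
  have h4 := (((h3.mul h2).const_sub 1).sub (h2.const_mul hh)).add
    (((h3.add_const hh).const_mul hh).mul h1)
  have h5 := h4.neg.div_const DD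
  have e : -(1 - 2 * gg * (2 * hh) - hh * (2 * hh) + hh * (2 * gg + hh) * 1) / DD = 1 := by
    rw [div_eq_iff DD_pos.ne']
    have : DD = 2 + 2 * hh := rfl
    rw [this]
    linear_combination hh_sq + 2 * hg
  rw [e] at h5
  exact h5

lemma w12_lim' : Tendsto (fun m : ℕ => w12 ((n m : ℝ) + 1) (L m)) F (𝓝 (4 * √2)) := by
  have h1 := lam_lim' hn hL
  have h2 := rho_lim' hn hL
  have h3 := mu_lim' hn hL
  have h4 := ((((h3.mul h2).const_sub 1).sub (h2.const_mul hh)).const_mul hh).sub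
    ((h3.add_const hh).mul h1)
  have h5 := h4.neg.div_const DD
  have e : -(hh * (1 - 2 * gg * (2 * hh) - hh * (2 * hh)) - (2 * gg + hh) * 1) / DD = 4 * √2 := by
    have hD : DD ≠ 0 := DD_pos.ne'
    field_simp
    unfold DD gg hh
    ring_nf
    rw [show √2 ^ 3 = 2 * √2 by rw [pow_succ, Real.sq_sqrt (by norm_num)],
      Real.sq_sqrt (by norm_num)]
    ring
  rw [e] at h5
  exact h5

lemma w21_lim' : Tendsto (fun m : ℕ => w21 ((n m : ℝ) + 1) (L m)) F (𝓝 0) := by
  have h1 := lam_lim' hn hL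
  have h2 := rho_lim' hn hL
  have h3 := mu_lim' hn hL
  have h4 := ((((h3.const_mul hh).mul h2).const_sub hh).add h2).sub
    ((h1.const_mul hh).mul ((h3.const_mul hh).const_sub 1))
  have h6 := h4.neg.div_const DD
  have e : -(hh - hh * (2 * gg) * (2 * hh) + 2 * hh - hh * 1 * (1 - hh * (2 * gg))) / DD = 0 := by
    rw [div_eq_zero_iff]; left
    linear_combination (2 * hh) * hg
  rw [e] at h6
  exact h6

lemma w22_lim' : Tendsto (fun m : ℕ => w22 ((n m : ℝ) + 1) (L m)) F (𝓝 1) := by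
  have h1 := lam_lim' hn hL
  have h2 := rho_lim' hn hL
  have h3 := mu_lim' hn hL
  have h4 := ((((h3.const_mul hh).mul h2).const_sub hh).add h2).const_mul hh
  have h5 := h1.mul ((h3.const_mul hh).const_sub 1)
  have h6 := (h4.add h5).neg.div_const DD
  have e : -(hh * (hh - hh * (2 * gg) * (2 * hh) + 2 * hh) + 1 * (1 - hh * (2 * gg))) / DD = 1 := by
    rw [div_eq_iff DD_pos.ne']
    have : DD = 2 + 2 * hh := rfl
    rw [this]
    linear_combination hh_sq + (4 * hh ^ 2 + 2) * hg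
  rw [e] at h6
  exact h6

end

section
variable {F : Filter ℕ} {n : ℕ → ℕ} (hn : Tendsto n F atTop)
  {L : ℕ → ℕ} (hL : Tendsto (fun m : ℕ => (L m : ℝ) / ((n m : ℝ) + 1)) F (𝓝 (1 / DD)))

include hn hL

lemma ev_L' (k : ℕ) : ∀ᶠ m : ℕ in F, k ≤ L m ∧ L m ≤ n m := by
  have hD : (2 : ℝ) < DD := by unfold DD; linarith [hh_pos]
  have hD0 := DD_pos
  have h2 : 1 / (2 * DD) < 1 / DD := by
    apply one_div_lt_one_div_of_lt hD0; linarith
  have h3 : 1 / DD < 1 / 2 := one_div_lt_one_div_of_lt (by norm_num) hD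
  have h4 := hL.eventually (lt_mem_nhds h2)
  have h5 := hL.eventually (gt_mem_nhds h3)
  have h6 : ∀ᶠ m : ℕ in F, (2 * DD) * k ≤ n m :=
    (tendsto_natCast_atTop_atTop.comp hn).eventually_ge_atTop _
  have h7 : ∀ᶠ m : ℕ in F, 1 ≤ n m := hn.eventually_ge_atTop 1
  filter_upwards [h4, h5, h6, h7] with m h4 h5 h6 h7
  have hn : (0 : ℝ) < (n m : ℝ) + 1 := by positivity
  constructor
  · rw [lt_div_iff₀ hn] at h4
    have : (k : ℝ) ≤ 1 / (2 * DD) * ((n m : ℝ) + 1) := by
      rw [div_mul_eq_mul_div, le_div_iff₀ (by positivity)]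
      linarith
    exact_mod_cast (this.trans h4.le)
  · rw [div_lt_iff₀ hn] at h5
    have h7' : (1 : ℝ) ≤ n m := by exact_mod_cast h7
    have : (L m : ℝ) ≤ n m := by linarith
    exact_mod_cast this

variable {N : ℕ → ℝ} {c d : ℝ} (hc : Tendsto (fun m : ℕ => cc (n m) (L m) / N m) F (𝓝 c))
  (hd : Tendsto (fun m : ℕ => dd (n m) (L m) / N m) F (𝓝 d))

include hc hd

lemma window' (i : ℕ) : Tendsto (fun m : ℕ => cc (n m) (L m - i) / N m) F (𝓝 (c + 4 * √2 * d * i)) ∧
    Tendsto (fun m : ℕ => dd (n m) (L m - i) / N m) F (𝓝 d) := by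
  induction i with
  | zero => simpa using ⟨hc, hd⟩
  | succ i ih =>
    obtain ⟨h1, h2⟩ := ih
    have hLi : Tendsto (fun m : ℕ => ((L m : ℝ) - i) / ((n m : ℝ) + 1)) F (𝓝 (1 / DD)) := by
      have h3 := hL.sub ((inv_lim' hn).const_mul (i : ℝ))
      rw [mul_zero, sub_zero] at h3
      refine h3.congr fun m => ?_
      ring
    have h11 := w11_lim' hn hLi
    have h12 := w12_lim' hn hLi
    have h21 := w21_lim' hn hLi
    have h22 := w22_lim' hn hLi
    have hst : ∀ᶠ m : ℕ in F,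
        cc (n m) (L m - (i + 1)) = w11 (n m + 1) ((L m : ℝ) - i) * cc (n m) (L m - i) +
          w12 (n m + 1) ((L m : ℝ) - i) * dd (n m) (L m - i) ∧
        dd (n m) (L m - (i + 1)) = w21 (n m + 1) ((L m : ℝ) - i) * cc (n m) (L m - i) +
          w22 (n m + 1) ((L m : ℝ) - i) * dd (n m) (L m - i) := by
      filter_upwards [ev_L' hn hL (i + 2)] with m hm
      have h := step (n m) (L m - i) (by omega) (by omega)
      rw [show L m - i - 1 = L m - (i + 1) by omega, Nat.cast_sub (by omega)] at h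
      exact h
    constructor
    · have h := (h11.mul h1).add (h12.mul h2)
      have e : 1 * (c + 4 * √2 * d * i) + 4 * √2 * d = c + 4 * √2 * d * ((i + 1 : ℕ) : ℝ) := by
        push_cast; ring
      rw [e] at h
      refine h.congr' ?_
      filter_upwards [hst] with m hm
      rw [hm.1]
      ring
    · have h := (h21.mul h1).add (h22.mul h2)
      rw [zero_mul, zero_add, one_mul] at h
      refine h.congr' ?_
      filter_upwards [hst] with m hm
      rw [hm.2]
      ring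

end

/-- the limit of the fraction -/
noncomputable def gf (c d : ℝ) : ℝ := (d - hh * c) ^ 2 / (DD * (c ^ 2 + d ^ 2))

lemma gf_nonneg (c d : ℝ) : 0 ≤ gf c d := by
  unfold gf; have := DD_pos; positivity

lemma gf_large {c d : ℝ} (h : 20 * |d| ≤ |c|) (h0 : 0 < |c|) : (4 : ℝ) / 5 ≤ gf c d := by
  unfold gf
  have hD := DD_pos
  have hc : 0 < c ^ 2 := by rw [← sq_abs]; positivity
  rw [le_div_iff₀ (by positivity)]
  have h1 : (20 * |d|) ^ 2 ≤ |c| ^ 2 := pow_le_pow_left₀ (by positivity) h 2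
  rw [mul_pow, sq_abs, sq_abs] at h1
  have h2 : 2 * c * d ≤ c ^ 2 / 10 := by
    have : c * d ≤ |c| * |d| := by rw [← abs_mul]; exact le_abs_self _
    have h3 : |c| * |d| ≤ |c| * (|c| / 20) := mul_le_mul_of_nonneg_left (by linarith) (abs_nonneg _)
    have h4 : |c| * (|c| / 20) = c ^ 2 / 20 := by rw [← sq_abs c]; ring
    linarith
  have hh2 := hh_gt
  have e : (d - hh * c) ^ 2 = d ^ 2 - hh * (2 * c * d) + (2 * hh + 1) * c ^ 2 := by
    rw [← hh_sq]; ring
  rw [e]
  have h5 : hh * (2 * c * d) ≤ hh * (c ^ 2 / 10) := mul_le_mul_of_nonneg_left h2 hh_pos.le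
  have h6 : DD * (c ^ 2 + d ^ 2) ≤ DD * (c ^ 2 + c ^ 2 / 400) :=
    mul_le_mul_of_nonneg_left (by linarith) hD.le
  have h7 : DD = 2 + 2 * hh := rfl
  rw [h7] at h6 ⊢
  have h8 : hh > 2.3 := by
    unfold hh
    have : (1.3 : ℝ) < √2 := by
      rw [Real.lt_sqrt (by norm_num)]; norm_num
    linarith
  nlinarith [sq_nonneg d]

lemma sum_gf (c d : ℝ) (h : |c| + |d| = 1) :
    (73.5 : ℝ) ≤ ∑ i ∈ range 100, gf (c + 4 * √2 * d * i) d := by
  classical
  set S := (range 100).filter (fun i : ℕ => |c + 4 * √2 * d * i| < 20 * |d|) with hS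
  have hs2 : (1.4 : ℝ) < √2 := by rw [Real.lt_sqrt (by norm_num)]; norm_num
  have hcard : S.card ≤ 8 := by
    by_contra hcon
    push Not at hcon
    have hne : S.Nonempty := by rw [← card_pos]; omega
    set a := S.min' hne with ha
    have haS : a ∈ S := S.min'_mem hne
    have hsub : S ⊆ Finset.Ico a (a + 8) := by
      intro b hb
      have hab : a ≤ b := S.min'_le b hb
      rw [Finset.mem_Ico]
      refine ⟨hab, ?_⟩
      by_contra hge
      push Not at hge
      rw [hS, mem_filter] at haS hb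
      have h1 := haS.2
      have h2 := hb.2
      have h3 : |4 * √2 * d * (b - a)| < 40 * |d| := by
        have : 4 * √2 * d * ((b : ℝ) - a) = (c + 4 * √2 * d * b) - (c + 4 * √2 * d * a) := by ring
        rw [this]
        calc _ ≤ |c + 4 * √2 * d * b| + |c + 4 * √2 * d * a| := abs_sub _ _
          _ < _ := by linarith
      have h4 : (8 : ℝ) ≤ (b : ℝ) - a := by
        have : ((a + 8 : ℕ) : ℝ) ≤ b := by exact_mod_cast hge
        push_cast at this
        linarith
      rw [abs_mul, abs_mul, abs_of_nonneg (show (0 : ℝ) ≤ 4 * √2 by positivity),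
        abs_of_nonneg (show (0 : ℝ) ≤ (b : ℝ) - a by linarith)] at h3
      have h5 : 0 ≤ |d| := abs_nonneg d
      have h6 : 4 * √2 * |d| * 8 ≤ 4 * √2 * |d| * ((b : ℝ) - a) :=
        mul_le_mul_of_nonneg_left h4 (by positivity)
      nlinarith
    have := card_le_card hsub
    rw [Nat.card_Ico] at this
    omega
  have hsplit := sum_filter_add_sum_filter_not (range 100)
    (fun i : ℕ => |c + 4 * √2 * d * i| < 20 * |d|) (fun i : ℕ => gf (c + 4 * √2 * d * i) d)
  have hcard2 : 92 ≤ ((range 100).filter (fun i : ℕ => ¬ |c + 4 * √2 * d * i| < 20 * |d|)).card := by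
    have := card_filter_add_card_filter_not (s := range 100)
      (fun i : ℕ => |c + 4 * √2 * d * i| < 20 * |d|)
    rw [card_range] at this
    rw [← hS] at this
    omega
  have h1 : 0 ≤ ∑ i ∈ (range 100).filter (fun i : ℕ => |c + 4 * √2 * d * i| < 20 * |d|),
      gf (c + 4 * √2 * d * i) d := sum_nonneg fun i _ => gf_nonneg _ _
  have h2 : ((range 100).filter (fun i : ℕ => ¬ |c + 4 * √2 * d * i| < 20 * |d|)).card • (4 / 5 : ℝ) ≤
      ∑ i ∈ (range 100).filter (fun i : ℕ => ¬ |c + 4 * √2 * d * i| < 20 * |d|),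
      gf (c + 4 * √2 * d * i) d := by
    refine card_nsmul_le_sum _ _ _ fun i hi => ?_
    rw [mem_filter] at hi
    have h3 := hi.2
    push Not at h3
    refine gf_large h3 ?_
    by_contra h4
    have h5 : |c + 4 * √2 * d * i| = 0 := le_antisymm (not_lt.1 h4) (abs_nonneg _)
    have h6 : |d| = 0 := by
      have := abs_nonneg d
      linarith
    rw [abs_eq_zero] at h5 h6
    rw [h6] at h5
    simp at h5
    rw [h5, h6] at h
    simp at h
  have h3 : (92 : ℝ) ≤ ((range 100).filter (fun i : ℕ => ¬ |c + 4 * √2 * d * i| < 20 * |d|)).card := by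
    exact_mod_cast hcard2
  rw [nsmul_eq_mul] at h2
  rw [← hsplit]
  linarith

/-- the windows near the turning point -/
theorem windows : ∃ η : ℝ, 0 < η ∧ ∃ T : ℕ, ∀ n : ℕ, T ≤ n → ∀ L : ℕ,
    |(L : ℝ) / ((n : ℝ) + 1) - 1 / DD| < η → (73 : ℝ) ≤ ∑ i ∈ range 100, ff n (L - i) := by
  by_contra hcon
  push Not at hcon
  have hch : ∀ m : ℕ, ∃ n : ℕ, m ≤ n ∧ ∃ L : ℕ,
      |(L : ℝ) / ((n : ℝ) + 1) - 1 / DD| < 1 / ((m : ℝ) + 1) ∧ ∑ i ∈ range 100, ff n (L - i) < 73 :=
    fun m => hcon (1 / ((m : ℝ) + 1)) (by positivity) m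
  choose n hnm L hL1 hL2 using hch
  set F : Ultrafilter ℕ := hyperfilter ℕ with hF
  have hFle : (F : Filter ℕ) ≤ atTop := Nat.hyperfilter_le_atTop
  have hn : Tendsto n F atTop := (tendsto_atTop_mono hnm tendsto_id).mono_left hFle
  have hL : Tendsto (fun m : ℕ => (L m : ℝ) / ((n m : ℝ) + 1)) F (𝓝 (1 / DD)) := by
    have h1 : Tendsto (fun m : ℕ => 1 / ((m : ℝ) + 1)) F (𝓝 0) :=
      tendsto_one_div_add_atTop_nhds_zero_nat.mono_left hFle
    rw [tendsto_iff_dist_tendsto_zero]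
    refine squeeze_zero (fun m => dist_nonneg) (fun m => ?_) h1
    rw [Real.dist_eq]
    exact (hL1 m).le
  set N : ℕ → ℝ := fun m => |cc (n m) (L m)| + |dd (n m) (L m)| with hN
  have hNpos : ∀ᶠ m : ℕ in (F : Filter ℕ), 0 < N m := by
    filter_upwards [ev_L' hn hL 1] with m hm
    have h := nz (n m) (L m) hm.1 hm.2
    rcases h with h | h
    · have : 0 < |cc (n m) (L m)| := abs_pos.2 h
      have := abs_nonneg (dd (n m) (L m))
      simp only [hN]
      linarith
    · have : 0 < |dd (n m) (L m)| := abs_pos.2 h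
      have := abs_nonneg (cc (n m) (L m))
      simp only [hN]
      linarith
  have hcb : ∀ᶠ m : ℕ in (F : Filter ℕ), cc (n m) (L m) / N m ∈ Set.Icc (-1 : ℝ) 1 := by
    filter_upwards [hNpos] with m hm
    rw [Set.mem_Icc, ← abs_le, abs_div, abs_of_pos hm, div_le_one hm]
    have := abs_nonneg (dd (n m) (L m))
    simp only [hN]
    linarith
  have hdb : ∀ᶠ m : ℕ in (F : Filter ℕ), dd (n m) (L m) / N m ∈ Set.Icc (-1 : ℝ) 1 := by
    filter_upwards [hNpos] with m hm
    rw [Set.mem_Icc, ← abs_le, abs_div, abs_of_pos hm, div_le_one hm]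
    have := abs_nonneg (cc (n m) (L m))
    simp only [hN]
    linarith
  obtain ⟨c, -, hc'⟩ := isCompact_Icc.ultrafilter_le_nhds' (F.map fun m => cc (n m) (L m) / N m) hcb
  obtain ⟨d, -, hd'⟩ := isCompact_Icc.ultrafilter_le_nhds' (F.map fun m => dd (n m) (L m) / N m) hdb
  have hc : Tendsto (fun m : ℕ => cc (n m) (L m) / N m) F (𝓝 c) := hc'
  have hd : Tendsto (fun m : ℕ => dd (n m) (L m) / N m) F (𝓝 d) := hd'
  have hcd : |c| + |d| = 1 := by
    have h1 := hc.abs.add hd.abs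
    refine tendsto_nhds_unique h1 (Tendsto.congr' ?_ tendsto_const_nhds)
    filter_upwards [hNpos] with m hm
    rw [abs_div, abs_div, abs_of_pos hm, ← add_div]
    exact (div_self hm.ne').symm
  have hlim : Tendsto (fun m : ℕ => ∑ i ∈ range 100, ff (n m) (L m - i)) F
      (𝓝 (∑ i ∈ range 100, gf (c + 4 * √2 * d * i) d)) := by
    refine tendsto_finsetSum _ fun i _ => ?_
    obtain ⟨h1, h2⟩ := window' hn hL hc hd i
    have hne : DD * ((c + 4 * √2 * d * i) ^ 2 + d ^ 2) ≠ 0 := by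
      refine mul_ne_zero DD_pos.ne' ?_
      intro h0
      have h3 : d ^ 2 = 0 := by nlinarith [sq_nonneg (c + 4 * √2 * d * i), sq_nonneg d]
      have h4 : d = 0 := by simpa using h3
      rw [h4] at h0
      have h5 : c = 0 := by simpa using h0
      rw [h4, h5] at hcd
      simp at hcd
    have h3 := ((h2.sub (h1.const_mul hh)).pow 2).div (((h1.pow 2).add (h2.pow 2)).const_mul DD) hne
    refine h3.congr' ?_
    filter_upwards [hNpos] with m hm
    rw [ff_eq]
    have hm' := hm.ne'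
    simp only [Pi.div_apply]
    rw [show (dd (n m) (L m - i) / N m - hh * (cc (n m) (L m - i) / N m)) ^ 2 =
      (dd (n m) (L m - i) - hh * cc (n m) (L m - i)) ^ 2 / (N m) ^ 2 by ring,
      show DD * ((cc (n m) (L m - i) / N m) ^ 2 + (dd (n m) (L m - i) / N m) ^ 2) =
      DD * (cc (n m) (L m - i) ^ 2 + dd (n m) (L m - i) ^ 2) / (N m) ^ 2 by ring]
    rw [div_div_div_cancel_right₀ (by positivity)]
  have h1 := le_of_tendsto hlim (Eventually.of_forall fun m => (hL2 m).le)
  have h2 := sum_gf c d hcd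
  norm_num at h2
  linarith

end Pool.Agent.X134.FC
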