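import Pool.Agent.X134.FC.Base

/-!
# Feynman checkers: the transfer in coordinates adapted to the turning point
-/

namespace Pool.Agent.X134.FC

open Filter Topology

/-- `1 + √2` -/
noncomputable def hh : ℝ := 1 + √2

/-- `√2 - 1` -/
noncomputable def gg : ℝ := √2 - 1

/-- `4 + 2√2` -/
noncomputable def DD : ℝ := 2 + 2 * hh

lemma sqrt_two_sq : √2 * √2 = (2 : ℝ) := Real.mul_self_sqrt (by norm_num)

lemma hh_sq : hh ^ 2 = 2 * hh + 1 := by
  unfold hh; nlinarith [sqrt_two_sq]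

lemma gg_eq : gg = hh - 2 := by unfold hh gg; ring

lemma hg : hh * gg = 1 := by
  unfold hh gg; nlinarith [sqrt_two_sq]

lemma hh_pos : 0 < hh := by unfold hh; positivity

lemma DD_pos : 0 < DD := by unfold DD; have := hh_pos; positivity

lemma hh_gt : 2 < hh := by
  unfold hh
  have : (1 : ℝ) < √2 := by
    rw [show (1 : ℝ) = √1 by simp]
    exact Real.sqrt_lt_sqrt (by norm_num) (by norm_num)
  linarith

/-- the increasing coordinate -/
noncomputable def cc (n L : ℕ) : ℝ := (-1) ^ L * ((aa (n - L) L : ℝ) - hh * bb (n - L) L)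

/-- the small coordinate -/
noncomputable def dd (n L : ℕ) : ℝ := (-1) ^ L * (hh * (aa (n - L) L : ℝ) + bb (n - L) L)

lemma cc_dd_sq (n L : ℕ) : cc n L ^ 2 + dd n L ^ 2 =
    DD * ((aa (n - L) L : ℝ) ^ 2 + (bb (n - L) L : ℝ) ^ 2) := by
  unfold cc dd DD
  rw [mul_pow, mul_pow, ← pow_mul, mul_comm L 2, pow_mul]
  norm_num
  have := hh_sq
  linear_combination ((aa (n - L) L : ℝ) ^ 2 + (bb (n - L) L : ℝ) ^ 2) * this

/-- the coefficients of the transfer -/
noncomputable def lam (t L : ℝ) : ℝ := L / (L - 1)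
noncomputable def rho (t L : ℝ) : ℝ := (t - 2 * L) / (L - 1)
noncomputable def mu (t L : ℝ) : ℝ := (t - 2 * L + 1) / (t - L)

noncomputable def w11 (t L : ℝ) : ℝ :=
  -((1 - mu t L * rho t L - hh * rho t L) + hh * (mu t L + hh) * lam t L) / DD
noncomputable def w12 (t L : ℝ) : ℝ :=
  -(hh * (1 - mu t L * rho t L - hh * rho t L) - (mu t L + hh) * lam t L) / DD
noncomputable def w21 (t L : ℝ) : ℝ :=
  -((hh - hh * mu t L * rho t L + rho t L) - hh * lam t L * (1 - hh * mu t L)) / DD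
noncomputable def w22 (t L : ℝ) : ℝ :=
  -(hh * (hh - hh * mu t L * rho t L + rho t L) + lam t L * (1 - hh * mu t L)) / DD

lemma step_B (p l : ℕ) : (l : ℤ) * bb (p + 1) l =
    (l + 1) * bb p (l + 1) + (p - l) * aa p (l + 1) := by
  rw [cII, aa_succ, bb_succ]; ring

lemma step_A (p l : ℕ) : ((p : ℤ) + 1) * aa (p + 1) l =
    (p + 1) * aa p (l + 1) - (p + 1 - l) * bb (p + 1) l := by
  rw [tA]; ring

lemma step (n L : ℕ) (h1 : 2 ≤ L) (h2 : L ≤ n) :
    cc n (L - 1) = w11 (n + 1) L * cc n L + w12 (n + 1) L * dd n L ∧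
    dd n (L - 1) = w21 (n + 1) L * cc n L + w22 (n + 1) L * dd n L := by
  obtain ⟨l, rfl⟩ : ∃ l, L = l + 1 := ⟨L - 1, by omega⟩
  obtain ⟨p, rfl⟩ : ∃ p, n = p + (l + 1) := ⟨n - (l + 1), by omega⟩
  have hl : (l : ℝ) ≠ 0 := by
    have : 1 ≤ l := by omega
    positivity
  have hp : (p : ℝ) + 1 ≠ 0 := by positivity
  have e1 : p + (l + 1) - (l + 1 - 1) = p + 1 := by omega
  have e2 : p + (l + 1) - (l + 1) = p := by omega
  have e3 : l + 1 - 1 = l := by omega
  have hB : (bb (p + 1) l : ℝ) = ((l : ℝ) + 1) / l * bb p (l + 1) + ((p : ℝ) - l) / l * aa p (l + 1) := by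
    have := step_B p l
    have h : (l : ℝ) * bb (p + 1) l = (l + 1) * bb p (l + 1) + (p - l) * aa p (l + 1) := by
      exact_mod_cast this
    field_simp
    linarith
  have hA : (aa (p + 1) l : ℝ) = aa p (l + 1) - ((p : ℝ) + 1 - l) / (p + 1) * bb (p + 1) l := by
    have := step_A p l
    have h : ((p : ℝ) + 1) * aa (p + 1) l = (p + 1) * aa p (l + 1) - (p + 1 - l) * bb (p + 1) l := by
      exact_mod_cast this
    field_simp
    linarith
  have hlam : lam (((p + (l + 1) : ℕ) : ℝ) + 1) ((l + 1 : ℕ) : ℝ) = ((l : ℝ) + 1) / l := by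
    unfold lam; push_cast; congr 1; ring
  have hrho : rho (((p + (l + 1) : ℕ) : ℝ) + 1) ((l + 1 : ℕ) : ℝ) = ((p : ℝ) - l) / l := by
    unfold rho; push_cast; congr 1 <;> ring
  have hmu : mu (((p + (l + 1) : ℕ) : ℝ) + 1) ((l + 1 : ℕ) : ℝ) = ((p : ℝ) + 1 - l) / (p + 1) := by
    unfold mu; push_cast; congr 1 <;> ring
  have hD : DD ≠ 0 := DD_pos.ne'
  unfold cc dd w11 w12 w21 w22
  rw [hlam, hrho, hmu, e1, e2, e3]
  generalize ((l : ℝ) + 1) / l = lm at *
  generalize ((p : ℝ) - l) / l = rh at *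
  generalize ((p : ℝ) + 1 - l) / (p + 1) = m at *
  rw [hA, hB, pow_succ]
  generalize (aa p (l + 1) : ℝ) = A at *
  generalize (bb p (l + 1) : ℝ) = B at *
  have hs := hh_sq
  generalize ((-1 : ℝ) ^ l) = s at *
  constructor
  · rw [div_mul_eq_mul_div, div_mul_eq_mul_div, ← add_div, eq_div_iff hD]
    unfold DD
    linear_combination (-s * ((1 - m * rh - hh * rh) * A - (m + hh) * lm * B)) * hs
  · rw [div_mul_eq_mul_div, div_mul_eq_mul_div, ← add_div, eq_div_iff hD]
    unfold DD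
    linear_combination (-s * ((hh - hh * m * rh + rh) * A + lm * (1 - hh * m) * B)) * hs

end Pool.Agent.X134.FC
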