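import Pool.Agent.X134.FC.Lim

/-!
# Feynman checkers: the contradiction at the turning point
-/

namespace Pool.Agent.X134.FC

open Filter Topology Finset

/-- the limit of the small coordinate -/
noncomputable def dl (c d s : ℝ) (i : ℕ) : ℝ :=
  d + c * ((-8 * s + √2 + 2) * i + 4 * i * (i - 1))

/-- the limit of the increments of the large coordinate -/
noncomputable def el (c d s : ℝ) (i : ℕ) : ℝ :=
  (-16 * √2 * (s - i) + 3 * √2 + 4) * c + 4 * √2 * dl c d s i

section
variable {F : Filter ℕ} (hF : F ≤ atTop) {L : ℕ → ℕ} {s : ℝ}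
  (hL : Tendsto (fun n : ℕ => (L n : ℝ) - ((n : ℝ) + 1) / DD) F (𝓝 s))

include hF hL

lemma ev_L (k : ℕ) : ∀ᶠ n : ℕ in F, k ≤ L n ∧ L n ≤ n := by
  have h1 := L_lim hF hL
  have hD : (2 : ℝ) < DD := by unfold DD; linarith [hh_pos]
  have hD0 := DD_pos
  have h2 : 1 / (2 * DD) < 1 / DD := by
    apply one_div_lt_one_div_of_lt hD0; linarith
  have h3 : 1 / DD < 1 / 2 := one_div_lt_one_div_of_lt (by norm_num) hD
  have h4 := h1.eventually (lt_mem_nhds h2)
  have h5 := h1.eventually (gt_mem_nhds h3)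
  have h6 : ∀ᶠ n : ℕ in F, (2 * DD) * k ≤ n := by
    apply hF
    exact tendsto_natCast_atTop_atTop.eventually_ge_atTop _
  have h7 : ∀ᶠ n : ℕ in F, 1 ≤ n := hF (eventually_ge_atTop 1)
  filter_upwards [h4, h5, h6, h7] with n h4 h5 h6 h7
  have hn : (0 : ℝ) < (n : ℝ) + 1 := by positivity
  constructor
  · rw [lt_div_iff₀ hn] at h4
    have : (k : ℝ) ≤ 1 / (2 * DD) * ((n : ℝ) + 1) := by
      rw [div_mul_eq_mul_div, le_div_iff₀ (by positivity)]
      linarith
    exact_mod_cast (this.trans h4.le)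
  · rw [div_lt_iff₀ hn] at h5
    have h7' : (1 : ℝ) ≤ n := by exact_mod_cast h7
    have : (L n : ℝ) ≤ n := by linarith
    exact_mod_cast this

variable {N : ℕ → ℝ} {c : ℝ}

lemma next {i : ℕ} {d : ℝ} (hc : Tendsto (fun n : ℕ => cc n (L n - i) / N n) F (𝓝 c))
    (hd : Tendsto (fun n : ℕ => ((n : ℝ) + 1) * (dd n (L n - i) / N n)) F (𝓝 d)) :
    Tendsto (fun n : ℕ => ((n : ℝ) + 1) * (cc n (L n - (i + 1)) / N n - cc n (L n - i) / N n)) F
      (𝓝 ((-16 * √2 * (s - i) + 3 * √2 + 4) * c + 4 * √2 * d)) ∧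
    Tendsto (fun n : ℕ => cc n (L n - (i + 1)) / N n) F (𝓝 c) ∧
    Tendsto (fun n : ℕ => ((n : ℝ) + 1) * (dd n (L n - (i + 1)) / N n)) F
      (𝓝 ((-8 * (s - i) + √2 + 2) * c + d)) := by
  have hLi : Tendsto (fun n : ℕ => ((L n : ℝ) - i) - ((n : ℝ) + 1) / DD) F (𝓝 (s - i)) := by
    refine (hL.sub_const (i : ℝ)).congr fun n => ?_
    ring
  have h11 := w11_lim hF hLi
  have h12 := w12_lim hF hLi
  have h21 := w21_lim hF hLi
  have h22 := w22_lim hF hLi
  have hst : ∀ᶠ n : ℕ in F,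
      cc n (L n - (i + 1)) = w11 (n + 1) ((L n : ℝ) - i) * cc n (L n - i) +
        w12 (n + 1) ((L n : ℝ) - i) * dd n (L n - i) ∧
      dd n (L n - (i + 1)) = w21 (n + 1) ((L n : ℝ) - i) * cc n (L n - i) +
        w22 (n + 1) ((L n : ℝ) - i) * dd n (L n - i) := by
    filter_upwards [ev_L hF hL (i + 2)] with n hn
    have h := step n (L n - i) (by omega) (by omega)
    rw [show L n - i - 1 = L n - (i + 1) by omega, Nat.cast_sub (by omega)] at h
    exact h
  have A : Tendsto (fun n : ℕ => ((n : ℝ) + 1) * (cc n (L n - (i + 1)) / N n -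
      cc n (L n - i) / N n)) F (𝓝 ((-16 * √2 * (s - i) + 3 * √2 + 4) * c + 4 * √2 * d)) := by
    refine ((h11.mul hc).add (h12.mul hd)).congr' ?_
    filter_upwards [hst] with n hn
    rw [hn.1]
    ring
  refine ⟨A, ?_, ?_⟩
  · have h := (A.mul (inv_lim hF)).add hc
    rw [mul_zero, zero_add] at h
    refine h.congr fun n => ?_
    have := tt_ne n
    field_simp
    ring
  · refine ((h21.mul hc).add (h22.mul hd)).congr' ?_ |>.trans (by rw [one_mul])
    filter_upwards [hst] with n hn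
    rw [hn.2]
    ring

variable {d : ℝ} (hc : Tendsto (fun n : ℕ => cc n (L n) / N n) F (𝓝 c))
  (hd : Tendsto (fun n : ℕ => ((n : ℝ) + 1) * (dd n (L n) / N n)) F (𝓝 d))

include hc hd

lemma window (i : ℕ) : Tendsto (fun n : ℕ => cc n (L n - i) / N n) F (𝓝 c) ∧
    Tendsto (fun n : ℕ => ((n : ℝ) + 1) * (dd n (L n - i) / N n)) F (𝓝 (dl c d s i)) := by
  induction i with
  | zero =>
    refine ⟨hc, ?_⟩
    have : dl c d s 0 = d := by unfold dl; simp
    rw [this]
    exact hd
  | succ i ih =>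
    obtain ⟨-, h2, h3⟩ := next hF hL ih.1 ih.2
    refine ⟨h2, ?_⟩
    have : dl c d s (i + 1) = (-8 * (s - i) + √2 + 2) * c + dl c d s i := by
      unfold dl; push_cast; ring
    rw [this]
    exact h3

lemma incr (i : ℕ) : Tendsto (fun n : ℕ => ((n : ℝ) + 1) * (cc n (L n - (i + 1)) / N n -
    cc n (L n - i) / N n)) F (𝓝 (el c d s i)) :=
  (next hF hL (window hF hL hc hd i).1 (window hF hL hc hd i).2).1

lemma incr_sum (i : ℕ) : Tendsto (fun n : ℕ => ((n : ℝ) + 1) * (cc n (L n - i) / N n -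
    cc n (L n) / N n)) F (𝓝 (∑ k ∈ range i, el c d s k)) := by
  induction i with
  | zero =>
    simp only [Nat.sub_zero, sub_self, mul_zero, range_zero, sum_empty]
    exact tendsto_const_nhds
  | succ i ih =>
    rw [sum_range_succ]
    refine (ih.add (incr hF hL hc hd i)).congr fun n => ?_
    ring

end

lemma quad_grow (a b e : ℝ) (ha : 0 < a) : ∃ K : ℕ, ∀ k : ℕ, K ≤ k → 1 ≤ a * k ^ 2 + b * k + e := by
  obtain ⟨K, hK⟩ := exists_nat_ge ((|b| + |e| + 1) / a + 1)
  refine ⟨K, fun k hk => ?_⟩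
  have hk' : (|b| + |e| + 1) / a + 1 ≤ k := hK.trans (by exact_mod_cast hk)
  have h0 : 0 ≤ (|b| + |e| + 1) / a := by positivity
  have h1 : (1 : ℝ) ≤ k := by linarith
  have h2 : |b| + |e| + 1 ≤ a * k := by
    have : (|b| + |e| + 1) / a ≤ k := by linarith
    rw [div_le_iff₀ ha] at this
    linarith
  have h3 : -|b| ≤ b := neg_abs_le b
  have h4 : -|e| ≤ e := neg_abs_le e
  have h5 : (|b| + |e| + 1) * k ≤ a * k * k := by nlinarith
  have h6 : -|b| * k ≤ b * k := by nlinarith
  have h7 : |e| * 1 ≤ |e| * k := by nlinarith [abs_nonneg e]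
  nlinarith

/-- the contradiction -/
theorem contra (F : Ultrafilter ℕ) (hF : (F : Filter ℕ) ≤ atTop) (L : ℕ → ℕ) (s : ℝ)
    (hL : Tendsto (fun n : ℕ => (L n : ℝ) - ((n : ℝ) + 1) / DD) F (𝓝 s))
    (hpos : ∀ᶠ n : ℕ in (F : Filter ℕ), 0 < cc n (L n - 1) ^ 2 + dd n (L n - 1) ^ 2)
    (hmax : ∀ i : ℕ, ∀ᶠ n : ℕ in (F : Filter ℕ), cc n (L n - i) ^ 2 + dd n (L n - i) ^ 2 ≤
      cc n (L n - 1) ^ 2 + dd n (L n - 1) ^ 2) : False := by
  set N : ℕ → ℝ := fun n => |cc n (L n)| + ((n : ℝ) + 1) * |dd n (L n)| with hN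
  have hNpos : ∀ᶠ n : ℕ in (F : Filter ℕ), 0 < N n := by
    filter_upwards [ev_L hF hL 2, hpos] with n hn hp
    by_contra hcon
    have hn1 : (0 : ℝ) < (n : ℝ) + 1 := by positivity
    have h1 : |cc n (L n)| = 0 := by
      have := abs_nonneg (cc n (L n))
      have := mul_nonneg hn1.le (abs_nonneg (dd n (L n)))
      simp only [hN] at hcon
      linarith
    have h2 : |dd n (L n)| = 0 := by
      have h3 := mul_nonneg hn1.le (abs_nonneg (dd n (L n)))
      simp only [hN] at hcon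
      have : ((n : ℝ) + 1) * |dd n (L n)| = 0 := by linarith
      rcases mul_eq_zero.1 this with h | h
      · exact absurd h hn1.ne'
      · exact h
    rw [abs_eq_zero] at h1 h2
    obtain ⟨e1, e2⟩ := step n (L n) (by omega) (by omega)
    rw [h1, h2] at e1 e2
    rw [e1, e2] at hp
    simp at hp
  have hcb : ∀ᶠ n : ℕ in (F : Filter ℕ), cc n (L n) / N n ∈ Set.Icc (-1 : ℝ) 1 := by
    filter_upwards [hNpos] with n hn
    rw [Set.mem_Icc, ← abs_le, abs_div, abs_of_pos hn, div_le_one hn]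
    have hn1 : (0 : ℝ) < (n : ℝ) + 1 := by positivity
    have := mul_nonneg hn1.le (abs_nonneg (dd n (L n)))
    simp only [hN]
    linarith
  have hdb : ∀ᶠ n : ℕ in (F : Filter ℕ), ((n : ℝ) + 1) * (dd n (L n) / N n) ∈ Set.Icc (-1 : ℝ) 1 := by
    filter_upwards [hNpos] with n hn
    have hn1 : (0 : ℝ) < (n : ℝ) + 1 := by positivity
    rw [Set.mem_Icc, ← abs_le, abs_mul, abs_div, abs_of_pos hn, abs_of_pos hn1, ← mul_div_assoc, div_le_one hn]
    have := abs_nonneg (cc n (L n))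
    simp only [hN]
    linarith
  obtain ⟨c, -, hc'⟩ := isCompact_Icc.ultrafilter_le_nhds' (F.map fun n => cc n (L n) / N n) hcb
  obtain ⟨d, -, hd'⟩ := isCompact_Icc.ultrafilter_le_nhds'
    (F.map fun n : ℕ => ((n : ℝ) + 1) * (dd n (L n) / N n)) hdb
  have hc : Tendsto (fun n : ℕ => cc n (L n) / N n) F (𝓝 c) := hc'
  have hd : Tendsto (fun n : ℕ => ((n : ℝ) + 1) * (dd n (L n) / N n)) F (𝓝 d) := hd'
  have hcd : |c| + |d| = 1 := by
    have h1 := hc.abs.add hd.abs
    refine tendsto_nhds_unique h1 (Tendsto.congr' ?_ tendsto_const_nhds)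
    filter_upwards [hNpos] with n hn
    have hn1 : (0 : ℝ) < (n : ℝ) + 1 := by positivity
    rw [abs_mul, abs_div, abs_div, abs_of_pos hn, abs_of_pos hn1, ← mul_div_assoc, ← add_div]
    exact (div_self hn.ne').symm
  by_cases hc0 : c = 0
  · -- the case in which the small coordinate dominates
    subst hc0
    rw [abs_zero, zero_add] at hcd
    have hd1 : d ^ 2 = 1 := by rw [← sq_abs, hcd]; norm_num
    have hel : ∀ i, el 0 d s i = 4 * √2 * d := by intro i; unfold el dl; ring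
    have hdl : ∀ i, dl 0 d s i = d := by intro i; unfold dl; ring
    have u := incr hF hL hc hd 0
    have v := incr hF hL hc hd 1
    have z0 := (window hF hL hc hd 0).2
    have z1 := (window hF hL hc hd 1).2
    have z2 := (window hF hL hc hd 2).2
    rw [hel] at u v
    rw [hdl] at z0 z1 z2
    have q0 := (z0.pow 2).sub (z1.pow 2)
    have q1 := (z1.pow 2).sub (z2.pow 2)
    rw [sub_self] at q0 q1
    have lhs := (((u.mul v).mul_const (4 * √2 * d)).mul (u.add v))
    have rhs := ((u.mul q1).sub (v.mul q0)).const_mul (4 * √2 * d)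
    have huv := (v.mul_const (4 * √2 * d))
    have huu := (u.mul_const (4 * √2 * d))
    have hk : 0 < 4 * √2 * d * (4 * √2 * d) := by
      have : 4 * √2 * d * (4 * √2 * d) = 16 * (√2 * √2) * d ^ 2 := by ring
      rw [this, sqrt_two_sq, hd1]; norm_num
    have huv' := huv.eventually (lt_mem_nhds hk)
    have huu' := huu.eventually (lt_mem_nhds hk)
    have hle := le_of_tendsto_of_tendsto lhs rhs (by
      filter_upwards [hNpos, huv', huu', hmax 0, hmax 2] with n hn hv hu h0 h2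
      simp only [zero_add, one_add_one_eq_two] at hv hu ⊢
      have hn1 : (0 : ℝ) < (n : ℝ) + 1 := by positivity
      have h0' : (((n : ℝ) + 1) * (cc n (L n - 0) / N n)) ^ 2 +
          (((n : ℝ) + 1) * (dd n (L n - 0) / N n)) ^ 2 ≤
          (((n : ℝ) + 1) * (cc n (L n - 1) / N n)) ^ 2 +
          (((n : ℝ) + 1) * (dd n (L n - 1) / N n)) ^ 2 := by
        have := mul_le_mul_of_nonneg_left h0 (sq_nonneg (((n : ℝ) + 1) / N n))
        calc _ = (((n : ℝ) + 1) / N n) ^ 2 * (cc n (L n - 0) ^ 2 + dd n (L n - 0) ^ 2) := by ring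
          _ ≤ _ := this
          _ = _ := by ring
      have h2' : (((n : ℝ) + 1) * (cc n (L n - 2) / N n)) ^ 2 +
          (((n : ℝ) + 1) * (dd n (L n - 2) / N n)) ^ 2 ≤
          (((n : ℝ) + 1) * (cc n (L n - 1) / N n)) ^ 2 +
          (((n : ℝ) + 1) * (dd n (L n - 1) / N n)) ^ 2 := by
        have := mul_le_mul_of_nonneg_left h2 (sq_nonneg (((n : ℝ) + 1) / N n))
        calc _ = (((n : ℝ) + 1) / N n) ^ 2 * (cc n (L n - 2) ^ 2 + dd n (L n - 2) ^ 2) := by ring
          _ ≤ _ := this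
          _ = _ := by ring
      generalize hx0 : cc n (L n - 0) / N n = x0 at *
      generalize hx1 : cc n (L n - 1) / N n = x1 at *
      generalize hx2 : cc n (L n - 2) / N n = x2 at *
      generalize ((n : ℝ) + 1) * (dd n (L n - 0) / N n) = w0 at *
      generalize ((n : ℝ) + 1) * (dd n (L n - 1) / N n) = w1 at *
      generalize ((n : ℝ) + 1) * (dd n (L n - 2) / N n) = w2 at *
      generalize (n : ℝ) + 1 = t at *
      generalize 4 * √2 * d = k at *
      have A1 : w0 ^ 2 - w1 ^ 2 ≤ (t * (x1 - x0)) * (t * (x1 + x0)) := by nlinarith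
      have A2 : (t * (x2 - x1)) * (t * (x2 + x1)) ≤ w1 ^ 2 - w2 ^ 2 := by nlinarith
      have B1 := mul_le_mul_of_nonneg_left A1 hv.le
      have B2 := mul_le_mul_of_nonneg_left A2 hu.le
      nlinarith)
    have : 4 * √2 * d * (4 * √2 * d) * (4 * √2 * d) * (4 * √2 * d + 4 * √2 * d) =
      2 * (4 * √2 * d * (4 * √2 * d)) ^ 2 := by ring
    rw [this] at hle
    have h3 : 4 * √2 * d * (4 * √2 * d * 0 - 4 * √2 * d * 0) = 0 := by ring
    rw [h3] at hle
    nlinarith [pow_pos hk 2]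
  · -- the main case
    have key : ∀ i : ℕ, c * (∑ k ∈ range i, el c d s k) ≤ c * (∑ k ∈ range 1, el c d s k) := by
      intro i
      have a1 := (incr_sum hF hL hc hd i).sub (incr_sum hF hL hc hd 1)
      have a2 := (window hF hL hc hd i).1.add (window hF hL hc hd 1).1
      have a3 := ((window hF hL hc hd i).2.pow 2).sub ((window hF hL hc hd 1).2.pow 2)
      have a4 := (a1.mul a2).add (a3.mul (inv_lim hF))
      have hle := le_of_tendsto a4 (b := 0) (by
        filter_upwards [hNpos, hmax i] with n hn h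
        have hn1 : (0 : ℝ) < (n : ℝ) + 1 := by positivity
        have h' := mul_le_mul_of_nonneg_left h (show 0 ≤ ((n : ℝ) + 1) / (N n) ^ 2 by positivity)
        have hN' := hn.ne'
        have e : (((n : ℝ) + 1) * (cc n (L n - i) / N n - cc n (L n) / N n) -
            ((n : ℝ) + 1) * (cc n (L n - 1) / N n - cc n (L n) / N n)) *
            (cc n (L n - i) / N n + cc n (L n - 1) / N n) +
            ((((n : ℝ) + 1) * (dd n (L n - i) / N n)) ^ 2 -
              (((n : ℝ) + 1) * (dd n (L n - 1) / N n)) ^ 2) * (1 / ((n : ℝ) + 1)) =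
            ((n : ℝ) + 1) / (N n) ^ 2 * (cc n (L n - i) ^ 2 + dd n (L n - i) ^ 2) -
            ((n : ℝ) + 1) / (N n) ^ 2 * (cc n (L n - 1) ^ 2 + dd n (L n - 1) ^ 2) := by
          field_simp
          ring
        rw [e]
        linarith)
      nlinarith
    have hc2 : 0 < c ^ 2 := by positivity
    have hs2 : 0 < √2 := by positivity
    obtain ⟨K, hK⟩ := quad_grow (16 * √2 * c ^ 2)
      (16 * √2 * c ^ 2 + 4 * √2 * (c ^ 2 * (-8 * s + √2 + 2) - 4 * c ^ 2))
      ((-16 * √2 * s + 3 * √2 + 4) * c ^ 2 + 4 * √2 * (c * d)) (by positivity)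
    have hel : ∀ k : ℕ, K ≤ k → 1 ≤ c * el c d s k := by
      intro k hk
      refine (hK k hk).trans (le_of_eq ?_)
      unfold el dl
      ring
    have hgrow : ∀ j : ℕ, c * (∑ k ∈ range K, el c d s k) + j ≤ c * (∑ k ∈ range (K + j), el c d s k) := by
      intro j
      induction j with
      | zero => simp
      | succ j ih =>
        rw [← add_assoc, sum_range_succ, mul_add]
        have := hel (K + j) (by omega)
        push_cast
        linarith
    obtain ⟨j, hj⟩ := exists_nat_gt (c * (∑ k ∈ range 1, el c d s k) - c * (∑ k ∈ range K, el c d s k))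
    have h1 := hgrow j
    have h2 := key (K + j)
    linarith

end Pool.Agent.X134.FC
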